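import Mathlib

set_option autoImplicit false

open Finset Matrix

namespace H69Conf

variable {ι : Type*} [Fintype ι] [DecidableEq ι] {R : Type*} [CommRing R] [Algebra ℝ R]

/-- The transport identity for the third derivatives. -/
theorem transport (D : ι → Derivation ℝ R R) (hc : ∀ i j f, D i (D j f) = D j (D i f))
    (E : R) (V : ι → R) (b : ι → ℝ) (B : R) (hB : ∀ j, D j B = algebraMap ℝ R (b j))
    (H1 : ∀ l, ∑ i, D l (D i E) * V i = E * algebraMap ℝ R (b l))
    (H0 : ∑ i, D i E * V i = E * B)
    (P : ∀ j k l, ∑ i, D i E * D j (D k (D l (V i))) = 0) (j k l : ι) :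
    2 * ∑ i, V i * D i (D j (D k (D l E)))
      + ∑ i, (D i (D j (D k E)) * D l (V i) + D i (D j (D l E)) * D k (V i)
          + D i (D k (D l E)) * D j (V i))
      + D j (D k (D l E)) * B = 0 := by
  have e0 := congrArg (fun z => D j (D k (D l z))) H0
  have e1 := congrArg (fun z => D k (D l z)) (H1 j)
  have e2 := congrArg (fun z => D j (D l z)) (H1 k)
  have e3 := congrArg (fun z => D j (D k z)) (H1 l)
  simp only [map_sum, map_add, Derivation.leibniz, smul_eq_mul, Derivation.map_algebraMap, hB,
    mul_zero, zero_add, add_zero] at e0 e1 e2 e3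
  have hP := P j k l
  have key : 2 * ∑ i, V i * D i (D j (D k (D l E)))
      + ∑ i, (D i (D j (D k E)) * D l (V i) + D i (D j (D l E)) * D k (V i)
          + D i (D k (D l E)) * D j (V i)) =
      (∑ i, (D j (D i E) * D k (D l (V i)) + D l (V i) * D k (D j (D i E))
          + (V i * D k (D l (D j (D i E))) + D l (D j (D i E)) * D k (V i))))
      + (∑ i, (D k (D i E) * D j (D l (V i)) + D l (V i) * D j (D k (D i E))
          + (V i * D j (D l (D k (D i E))) + D l (D k (D i E)) * D j (V i))))
      + (∑ i, (D l (D i E) * D j (D k (V i)) + D k (V i) * D j (D l (D i E))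
          + (V i * D j (D k (D l (D i E))) + D k (D l (D i E)) * D j (V i))))
      - (∑ i, ((D i E * D j (D k (D l (V i))) + D k (D l (V i)) * D j (D i E)
          + (D l (V i) * D j (D k (D i E)) + D k (D i E) * D j (D l (V i))))
          + (V i * D j (D k (D l (D i E))) + D k (D l (D i E)) * D j (V i)
          + (D l (D i E) * D j (D k (V i)) + D k (V i) * D j (D l (D i E))))))
      + ∑ i, D i E * D j (D k (D l (V i))) := by
    rw [Finset.mul_sum]
    simp only [← Finset.sum_add_distrib, ← Finset.sum_sub_distrib]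
    refine Finset.sum_congr rfl fun i _ => ?_
    have c1 : D i (D j (D k (D l E))) = D j (D k (D l (D i E))) := by
      rw [hc i j, hc i k, hc i l]
    have c2 : D i (D j (D k E)) = D j (D k (D i E)) := by rw [hc i j, hc i k]
    have c3 : D i (D j (D l E)) = D j (D l (D i E)) := by rw [hc i j, hc i l]
    have c4 : D i (D k (D l E)) = D k (D l (D i E)) := by rw [hc i k, hc i l]
    have c5 : D k (D j (D i E)) = D j (D k (D i E)) := hc _ _ _
    have c6 : D l (D j (D i E)) = D j (D l (D i E)) := hc _ _ _
    have c7 : D l (D k (D i E)) = D k (D l (D i E)) := hc _ _ _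
    have c8 : D k (D j (D l (D i E))) = D j (D k (D l (D i E))) := hc _ _ _
    rw [c1, c2, c3, c4, c5, c6, c7, c8]
    ring
  rw [key, e1, e2, e3, hP]
  have e0' : ∑ i, ((D i E * D j (D k (D l (V i))) + D k (D l (V i)) * D j (D i E)
          + (D l (V i) * D j (D k (D i E)) + D k (D i E) * D j (D l (V i))))
          + (V i * D j (D k (D l (D i E))) + D k (D l (D i E)) * D j (V i)
          + (D l (D i E) * D j (D k (V i)) + D k (V i) * D j (D l (D i E))))) =
      (algebraMap ℝ R) (b l) * (D j) ((D k) E) +
      (B * (D j) ((D k) ((D l) E)) + (D k) ((D l) E) * (algebraMap ℝ R) (b j) +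
        (algebraMap ℝ R) (b k) * (D j) ((D l) E)) := e0
  rw [e0']
  ring

end H69Conf
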