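import Mathlib

set_option autoImplicit false

namespace Pool.Agent.H69R3.Conf

/-- Partial derivative of `f : ℝⁿ → ℝ` in the direction of the `i`-th basis vector. -/
noncomputable def pd {n : ℕ} (i : Fin n) (f : (Fin n → ℝ) → ℝ) : (Fin n → ℝ) → ℝ :=
  fun y => fderiv ℝ f y (Pi.single i (1 : ℝ) : Fin n → ℝ)

/-- `F` is a smooth Finsler metric on the open set `U ⊆ ℝⁿ` (not assumed reversible). -/
structure IsFinsler {n : ℕ} (U : Set (Fin n → ℝ)) (F : (Fin n → ℝ) → (Fin n → ℝ) → ℝ) :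
    Prop where
  smooth : ContDiffOn ℝ ((⊤ : ℕ∞) : WithTop ℕ∞)
    (fun p : (Fin n → ℝ) × (Fin n → ℝ) => F p.1 p.2) (U ×ˢ {y | y ≠ 0})
  pos : ∀ x ∈ U, ∀ y : Fin n → ℝ, y ≠ 0 → 0 < F x y
  hom : ∀ x ∈ U, ∀ y : Fin n → ℝ, ∀ t : ℝ, 0 < t → F x (t • y) = t * F x y
  convex : ∀ x ∈ U, ∀ y : Fin n → ℝ, y ≠ 0 → ∀ v : Fin n → ℝ, v ≠ 0 →
    0 < ∑ i : Fin n, ∑ j : Fin n,
      (1 / 2 : ℝ) * pd i (pd j fun u => F x u ^ 2) y * v i * v j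

/-- `G` are the spray coefficients of `F` on `U`:
`g_il G^i = (1/4) ([F²]_{x^k y^l} y^k - [F²]_{x^l})`. -/
def IsSpray {n : ℕ} (U : Set (Fin n → ℝ)) (F : (Fin n → ℝ) → (Fin n → ℝ) → ℝ)
    (G : (Fin n → ℝ) → (Fin n → ℝ) → (Fin n → ℝ)) : Prop :=
  ∀ x ∈ U, ∀ y : Fin n → ℝ, y ≠ 0 → ∀ l : Fin n,
    ∑ i : Fin n, (1 / 2 : ℝ) * pd l (pd i fun u => F x u ^ 2) y * G x y i
      = (1 / 4 : ℝ) * ((∑ k : Fin n, pd k (fun z => pd l (fun u => F z u ^ 2) y) x * y k)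
          - pd l (fun z => F z y ^ 2) x)

/-- The Landsberg curvature vanishes on `U`: `g_im y^m B^i_jkl = 0`
(and `g_im y^m = (1/2) ∂F²/∂y^i`). -/
def IsLandsberg {n : ℕ} (U : Set (Fin n → ℝ)) (F : (Fin n → ℝ) → (Fin n → ℝ) → ℝ)
    (G : (Fin n → ℝ) → (Fin n → ℝ) → (Fin n → ℝ)) : Prop :=
  ∀ x ∈ U, ∀ y : Fin n → ℝ, y ≠ 0 → ∀ j k l : Fin n,
    ∑ i : Fin n, ((1 / 2 : ℝ) * pd i (fun u => F x u ^ 2) y)
      * pd j (pd k (pd l fun u => G x u i)) y = 0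

/-- The Berwald curvature `B^i_jkl = ∂³G^i/∂y^j∂y^k∂y^l` vanishes on `U`. -/
def IsBerwald {n : ℕ} (U : Set (Fin n → ℝ))
    (G : (Fin n → ℝ) → (Fin n → ℝ) → (Fin n → ℝ)) : Prop :=
  ∀ x ∈ U, ∀ y : Fin n → ℝ, y ≠ 0 → ∀ i j k l : Fin n,
    pd j (pd k (pd l fun u => G x u i)) y = 0

/-- The conformal change `e^{σ(x)} F(x,y)`. -/
noncomputable def conf {n : ℕ} (σ : (Fin n → ℝ) → ℝ) (F : (Fin n → ℝ) → (Fin n → ℝ) → ℝ) :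
    (Fin n → ℝ) → (Fin n → ℝ) → ℝ := fun x y => Real.exp (σ x) * F x y

end Pool.Agent.H69R3.Conf
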