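import Pool.Agent.H69R3.Conf.Flow

set_option autoImplicit false

open Finset Matrix Set Filter Topology

namespace H69Conf

variable {n : ℕ} {E : (Fin n → ℝ) → ℝ}

/-- derivative of a smooth function along a curve -/
theorem hasDerivAt_along {F : (Fin n → ℝ) → ℝ}
    (hF : ContDiffOn ℝ ((⊤ : ℕ∞) : WithTop ℕ∞) F (Om n)) {γ : ℝ → (Fin n → ℝ)} {v : Fin n → ℝ}
    {t : ℝ} (hγ : HasDerivAt γ v t) (hm : γ t ∈ Om n) :
    HasDerivAt (fun s => F (γ s)) (∑ i, v i * pd i F (γ t)) t := by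
  rw [← fderiv_eq_pd]
  exact (diffAt hF hm).hasFDerivAt.comp_hasDerivAt t hγ

theorem crit (H : Mink E) {b : Fin n → ℝ} (hb : b ≠ 0) {W : Fin n → (Fin n → ℝ) → ℝ}
    (hW : ∀ i, ContDiffOn ℝ ((⊤ : ℕ∞) : WithTop ℕ∞) (W i) (Om n))
    (hg : ∀ y ∈ Om n, ∀ l, ∑ i, pd l (pd i E) y * W i y = E y * b l)
    (he : ∀ y ∈ Om n, ∑ i, W i y * pd i E y = E y * ∑ i, b i * y i)
    {f : (Fin n → ℝ) → ℝ} (hf : ContDiffOn ℝ ((⊤ : ℕ∞) : WithTop ℕ∞) f (Om n))
    (hinv : ∀ y ∈ Om n, ∑ i, W i y * pd i f y = 0)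
    (hhom : ∀ y ∈ Om n, ∀ t : ℝ, 0 < t → f (t • y) = f y)
    {c : ℝ} (hc : ∃ y ∈ Om n, f y = c) :
    ∃ z ∈ Om n, f z = c ∧ ((∀ l, pd l E z = b l) ∨ (∀ l, pd l E z = -b l)) := by
  classical
  have hfc : ContinuousOn f (Om n) := hf.continuousOn
  have hEc : ContinuousOn E (Om n) := H.smooth.continuousOn
  set S : Set (Fin n → ℝ) := Metric.sphere 0 1 with hS
  have hSc : IsCompact S := isCompact_sphere 0 1
  have hSO : S ⊆ Om n := by
    intro y hy h0
    rw [h0] at hy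
    simp [hS] at hy
  let K : Set (Fin n → ℝ) := S ∩ f ⁻¹' {c}
  have hKcl : IsClosed K :=
    (hfc.mono hSO).preimage_isClosed_of_isClosed hSc.isClosed isClosed_singleton
  have hKc : IsCompact K := hSc.of_isClosed_subset hKcl inter_subset_left
  let B : (Fin n → ℝ) → ℝ := fun y => ∑ i, b i * y i
  let β : (Fin n → ℝ) → ℝ := fun y => B y / √(E y)
  have hβc : ContinuousOn β (Om n) := by
    refine ContinuousOn.div ?_ hEc.sqrt fun y hy => (Real.sqrt_pos.2 (H.pos y hy)).ne'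
    exact (continuous_finsetSum _ fun i _ => continuous_const.mul (continuous_apply i)).continuousOn
  have hβhom : ∀ y ∈ Om n, ∀ t : ℝ, 0 < t → β (t • y) = β y := by
    intro y hy t ht
    have e1 : B (t • y) = t * B y := by
      simp only [B, Finset.mul_sum, Pi.smul_apply, smul_eq_mul]
      exact Finset.sum_congr rfl fun i _ => by ring
    have e2 : √(E (t • y)) = t * √(E y) := by
      rw [H.hom y hy t ht, Real.sqrt_mul (by positivity), Real.sqrt_sq ht.le]
    simp only [β, e1, e2]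
    rw [mul_div_mul_left _ _ ht.ne']
  have hnorm : ∀ y ∈ Om n, ‖y‖⁻¹ • y ∈ S := by
    intro y hy
    have : ‖y‖ ≠ 0 := norm_ne_zero_iff.2 hy
    simp [hS, norm_smul, this]
  have hKne : K.Nonempty := by
    obtain ⟨y, hy, hyc⟩ := hc
    refine ⟨‖y‖⁻¹ • y, hnorm y hy, ?_⟩
    have : 0 < ‖y‖⁻¹ := inv_pos.2 (norm_pos_iff.2 hy)
    rw [Set.mem_preimage, hhom y hy _ this, hyc]
    rfl
  obtain ⟨y0, hy0K, hmax⟩ := hKc.exists_isMaxOn hKne (hβc.mono (inter_subset_left.trans hSO))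
  have hy0 : y0 ∈ Om n := hSO hy0K.1
  have hfy0 : f y0 = c := hy0K.2
  -- the integral curve
  have hX : ContDiffAt ℝ 1 (fun y => fun i => W i y) y0 := by
    rw [contDiffAt_pi]
    intro i
    exact ((hW i).contDiffAt ((isOpen_Om n).mem_nhds hy0)).of_le (by norm_cast)
  obtain ⟨γ, hγ0, ε, hε, hγ⟩ :=
    hX.exists_forall_mem_closedBall_exists_eq_forall_mem_Ioo_hasDerivAt₀ 0
  rw [zero_sub, zero_add] at hγ
  have h0mem : (0 : ℝ) ∈ Ioo (-ε) ε := ⟨by linarith, hε⟩
  have hcont0 : ContinuousAt γ 0 := (hγ 0 h0mem).continuousAt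
  have hOmγ : ∀ᶠ t in 𝓝 (0 : ℝ), γ t ∈ Om n := by
    have := hcont0.tendsto
    rw [hγ0] at this
    exact this ((isOpen_Om n).mem_nhds hy0)
  obtain ⟨η, hη, hηO⟩ := Metric.eventually_nhds_iff.1 hOmγ
  set r := min ε η with hr
  have hr0 : 0 < r := lt_min hε hη
  have hin : ∀ t ∈ Ioo (-r) r, t ∈ Ioo (-ε) ε ∧ γ t ∈ Om n := by
    intro t ht
    refine ⟨⟨?_, ?_⟩, hηO ?_⟩
    · have := ht.1; have := min_le_left ε η; linarith
    · have := ht.2; have := min_le_left ε η; linarith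
    · rw [Real.dist_eq, sub_zero, abs_lt]
      have h1 := ht.1; have h2 := ht.2; have h3 := min_le_right ε η
      exact ⟨by linarith, by linarith⟩
  have hfγ : ∀ t ∈ Ioo (-r) r, f (γ t) = c := by
    have hder : ∀ t ∈ Ioo (-r) r, HasDerivAt (fun s => f (γ s)) 0 t := by
      intro t ht
      obtain ⟨h1, h2⟩ := hin t ht
      have := hasDerivAt_along hf (hγ t h1) h2
      rwa [hinv _ h2] at this
    intro t ht
    have h0r : (0 : ℝ) ∈ Ioo (-r) r := ⟨by linarith, hr0⟩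
    have := (convex_Ioo (-r) r).is_const_of_fderivWithin_eq_zero (𝕜 := ℝ)
      (f := fun s => f (γ s)) (fun s hs => (hder s hs).differentiableAt.differentiableWithinAt)
      (fun s hs => by
        have h3 : HasFDerivAt (fun s => f (γ s)) (0 : ℝ →L[ℝ] ℝ) s := by
          have := (hder s hs).hasFDerivAt
          simpa using this
        exact (h3.hasFDerivWithinAt).fderivWithin
          (isOpen_Ioo.uniqueDiffWithinAt hs)) ht h0r
    rw [this, hγ0, hfy0]
  have hloc : IsLocalMax (fun s => β (γ s)) 0 := by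
    have hev : Ioo (-r) r ∈ 𝓝 (0 : ℝ) := Ioo_mem_nhds (by linarith) hr0
    filter_upwards [hev] with t ht
    obtain ⟨h1, h2⟩ := hin t ht
    have hpos : 0 < ‖γ t‖⁻¹ := inv_pos.2 (norm_pos_iff.2 h2)
    have hK : ‖γ t‖⁻¹ • γ t ∈ K := by
      refine ⟨hnorm _ h2, ?_⟩
      rw [Set.mem_preimage, hhom _ h2 _ hpos, hfγ t ht]; rfl
    have h3 : β (‖γ t‖⁻¹ • γ t) ≤ β y0 := hmax hK
    rw [hβhom _ h2 _ hpos] at h3
    rw [hγ0]; exact h3
  have hγ0' : HasDerivAt γ (fun i => W i y0) 0 := by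
    have := hγ 0 h0mem
    rwa [hγ0] at this
  have hEpos : 0 < E y0 := H.pos y0 hy0
  have hsq : 0 < √(E y0) := Real.sqrt_pos.2 hEpos
  have hdB : HasDerivAt (fun s => B (γ s)) (∑ i, b i * W i y0) 0 := by
    have h1 : ∀ i, HasDerivAt (fun s => γ s i) (W i y0) 0 := fun i => (hasDerivAt_pi.1 hγ0') i
    exact HasDerivAt.fun_sum fun i _ => (h1 i).const_mul (b i)
  have hdE : HasDerivAt (fun s => E (γ s)) (E y0 * B y0) 0 := by
    have h1 := hasDerivAt_along H.smooth hγ0' (by rw [hγ0]; exact hy0)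
    rw [hγ0, he y0 hy0] at h1
    exact h1
  have hdS : HasDerivAt (fun s => √(E (γ s))) (E y0 * B y0 / (2 * √(E y0))) 0 := by
    have := hdE.sqrt (by rw [hγ0]; exact hEpos.ne')
    rwa [hγ0] at this
  have hdβ : HasDerivAt (fun s => β (γ s))
      (((∑ i, b i * W i y0) * √(E y0) - B y0 * (E y0 * B y0 / (2 * √(E y0)))) / √(E y0) ^ 2) 0 := by
    have := hdB.fun_div hdS (by rw [hγ0]; exact hsq.ne')
    rw [hγ0] at this
    exact this
  have hzero := hloc.hasDerivAt_eq_zero hdβ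
  have hbW : (∑ i, b i * W i y0) = B y0 ^ 2 / 2 := by
    have hs2 : √(E y0) ^ 2 = E y0 := Real.sq_sqrt hEpos.le
    rw [div_eq_zero_iff] at hzero
    rcases hzero with h | h
    · have h' : (∑ i, b i * W i y0) * √(E y0) * (2 * √(E y0)) = B y0 * (E y0 * B y0) := by
        have h2 : B y0 * (E y0 * B y0 / (2 * √(E y0))) * (2 * √(E y0)) = B y0 * (E y0 * B y0) := by
          field_simp
        rw [← h2]
        have h3 : (∑ i, b i * W i y0) * √(E y0) = B y0 * (E y0 * B y0 / (2 * √(E y0))) := by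
          linarith
        rw [h3]
      have h4 : (∑ i, b i * W i y0) * 2 * √(E y0) ^ 2 = B y0 ^ 2 * E y0 := by
        linear_combination h'
      rw [hs2] at h4
      have h5 : (∑ i, b i * W i y0) * 2 = B y0 ^ 2 :=
        mul_right_cancel₀ hEpos.ne' h4
      linarith
    · exact absurd h (by positivity)
  -- w = W - (B/2) y vanishes
  have hw : (fun i => W i y0 - B y0 / 2 * y0 i) = (0 : Fin n → ℝ) := by
    by_contra hne
    have h1 := H.conv y0 hy0 _ hne
    have hgy : ∀ l, ∑ i, pd l (pd i E) y0 * y0 i = pd l E y0 := by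
      intro l
      rw [← H.euler2 hy0 l]
      refine Finset.sum_congr rfl fun i _ => ?_
      rw [pd_comm l i H.smooth hy0, mul_comm]
    have h2 : ∑ i, ∑ j, pd i (pd j E) y0 * (W i y0 - B y0 / 2 * y0 i) *
        (W j y0 - B y0 / 2 * y0 j) = 0 := by
      have h3 : ∀ i, ∑ j, pd i (pd j E) y0 * (W i y0 - B y0 / 2 * y0 i) *
        (W j y0 - B y0 / 2 * y0 j) = (W i y0 - B y0 / 2 * y0 i) *
          (E y0 * b i - B y0 / 2 * pd i E y0) := by
        intro i
        rw [← hg y0 hy0 i, ← hgy i, Finset.mul_sum, ← Finset.sum_sub_distrib, Finset.mul_sum]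
        refine Finset.sum_congr rfl fun j _ => ?_
        ring
      rw [Finset.sum_congr rfl fun i _ => h3 i]
      have h4 : ∀ i, (W i y0 - B y0 / 2 * y0 i) * (E y0 * b i - B y0 / 2 * pd i E y0) =
          E y0 * (b i * W i y0) - B y0 / 2 * (W i y0 * pd i E y0)
          - B y0 / 2 * E y0 * (b i * y0 i) + (B y0 / 2) ^ 2 * (y0 i * pd i E y0) := by
        intro i; ring
      rw [Finset.sum_congr rfl fun i _ => h4 i, Finset.sum_add_distrib, Finset.sum_sub_distrib,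
        Finset.sum_sub_distrib, ← Finset.mul_sum, ← Finset.mul_sum, ← Finset.mul_sum,
        ← Finset.mul_sum, hbW, he y0 hy0, H.euler hy0]
      change E y0 * (B y0 ^ 2 / 2) - B y0 / 2 * (E y0 * B y0) - B y0 / 2 * E y0 * B y0 +
        (B y0 / 2) ^ 2 * (2 * E y0) = 0
      ring
    linarith
  have hbl : ∀ l, E y0 * b l = B y0 / 2 * pd l E y0 := by
    intro l
    rw [← hg y0 hy0 l, ← H.euler2 hy0 l, Finset.mul_sum]
    refine Finset.sum_congr rfl fun i _ => ?_
    have : W i y0 = B y0 / 2 * y0 i := by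
      have := congrFun hw i
      simp only [Pi.zero_apply] at this
      linarith
    rw [this, pd_comm l i H.smooth hy0]
    ring
  have hB0 : B y0 ≠ 0 := by
    intro h0
    apply hb
    ext l
    have := hbl l
    rw [h0] at this
    simp only [zero_div, zero_mul, mul_eq_zero, hEpos.ne', false_or] at this
    exact this
  -- conclude
  set s := B y0 / (2 * E y0) with hs
  have hbs : ∀ l, b l = s * pd l E y0 := by
    intro l
    have := hbl l
    rw [hs]
    field_simp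
    linarith
  rcases lt_or_gt_of_ne hB0 with hneg | hpos
  · have hs0 : 0 < -s := by
      rw [hs]
      have : B y0 / (2 * E y0) < 0 := div_neg_of_neg_of_pos hneg (by positivity)
      linarith
    refine ⟨(-s) • y0, smul_mem_Om hy0 hs0.ne', ?_, Or.inr fun l => ?_⟩
    · rw [hhom y0 hy0 _ hs0, hfy0]
    · rw [H.grad_scale l y0 hy0 _ hs0, hbs l]; ring
  · have hs0 : 0 < s := div_pos hpos (by positivity)
    refine ⟨s • y0, smul_mem_Om hy0 hs0.ne', ?_, Or.inl fun l => ?_⟩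
    · rw [hhom y0 hy0 _ hs0, hfy0]
    · rw [H.grad_scale l y0 hy0 _ hs0, hbs l]

theorem const_of_inv (hn : 2 ≤ n) (H : Mink E) {b : Fin n → ℝ} (hb : b ≠ 0)
    {W : Fin n → (Fin n → ℝ) → ℝ}
    (hW : ∀ i, ContDiffOn ℝ ((⊤ : ℕ∞) : WithTop ℕ∞) (W i) (Om n))
    (hg : ∀ y ∈ Om n, ∀ l, ∑ i, pd l (pd i E) y * W i y = E y * b l)
    (he : ∀ y ∈ Om n, ∑ i, W i y * pd i E y = E y * ∑ i, b i * y i)
    {f : (Fin n → ℝ) → ℝ} (hf : ContDiffOn ℝ ((⊤ : ℕ∞) : WithTop ℕ∞) f (Om n))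
    (hinv : ∀ y ∈ Om n, ∑ i, W i y * pd i f y = 0)
    (hhom : ∀ y ∈ Om n, ∀ t : ℝ, 0 < t → f (t • y) = f y) :
    ∀ p ∈ Om n, ∀ q ∈ Om n, f p = f q := by
  have key : ∀ p ∈ Om n, ∀ q ∈ Om n, ¬ f p < f q := by
    intro p hp q hq hlt
    have hpre : IsPreconnected (Om n) := by
      have : Om n = {(0 : Fin n → ℝ)}ᶜ := rfl
      rw [this]
      refine (isConnected_compl_singleton_of_one_lt_rank ?_ 0).isPreconnected
      rw [rank_fin_fun]
      exact_mod_cast hn
    have hmid : (f p + f q) / 2 ∈ f '' (Om n) :=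
      hpre.intermediate_value hp hq hf.continuousOn ⟨by linarith, by linarith⟩
    obtain ⟨m, hm, hfm⟩ := hmid
    obtain ⟨z1, hz1, hf1, h1⟩ := crit H hb hW hg he hf hinv hhom ⟨p, hp, rfl⟩
    obtain ⟨z2, hz2, hf2, h2⟩ := crit H hb hW hg he hf hinv hhom ⟨m, hm, rfl⟩
    obtain ⟨z3, hz3, hf3, h3⟩ := crit H hb hW hg he hf hinv hhom ⟨q, hq, rfl⟩
    have hne12 : z1 ≠ z2 := by rintro rfl; rw [hf1] at hf2; linarith
    have hne13 : z1 ≠ z3 := by rintro rfl; rw [hf1] at hf3; linarith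
    have hne23 : z2 ≠ z3 := by rintro rfl; rw [hf2] at hf3; linarith
    rcases h1 with h1 | h1 <;> rcases h2 with h2 | h2 <;> rcases h3 with h3 | h3
    · exact hne12 (H.grad_inj hz1 hz2 fun l => by rw [h1, h2])
    · exact hne12 (H.grad_inj hz1 hz2 fun l => by rw [h1, h2])
    · exact hne13 (H.grad_inj hz1 hz3 fun l => by rw [h1, h3])
    · exact hne23 (H.grad_inj hz2 hz3 fun l => by rw [h2, h3])
    · exact hne23 (H.grad_inj hz2 hz3 fun l => by rw [h2, h3])
    · exact hne13 (H.grad_inj hz1 hz3 fun l => by rw [h1, h3])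
    · exact hne12 (H.grad_inj hz1 hz2 fun l => by rw [h1, h2])
    · exact hne12 (H.grad_inj hz1 hz2 fun l => by rw [h1, h2])
  intro p hp q hq
  rcases lt_trichotomy (f p) (f q) with h | h | h
  · exact absurd h (key p hp q hq)
  · exact h
  · exact absurd h (key q hq p hp)

end H69Conf
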