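import Pool.Agent.H69R3.Conf.Jac

set_option autoImplicit false

open Finset Matrix

namespace H69Conf

section fac
open scoped MatrixOrder ComplexOrder Matrix.Norms.L2Operator

theorem exists_factor {n : ℕ} {h : Matrix (Fin n) (Fin n) ℝ} (hs : hᵀ = h)
    (hp : ∀ v : Fin n → ℝ, v ≠ 0 → 0 < v ⬝ᵥ (h *ᵥ v)) :
    ∃ P Q : Matrix (Fin n) (Fin n) ℝ, h = Pᵀ * P ∧ Q * P = 1 ∧ P * Q = 1 := by
  have hpd : h.PosDef := by
    refine Matrix.PosDef.of_dotProduct_mulVec_pos ?_ ?_
    · rw [IsHermitian, conjTranspose_eq_transpose_of_trivial, hs]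
    · intro x hx
      simpa using hp x hx
  obtain ⟨P, hP⟩ := CStarAlgebra.nonneg_iff_eq_star_mul_self.mp hpd.posSemidef.nonneg
  have hP' : h = Pᵀ * P := by
    rw [hP, star_eq_conjTranspose, conjTranspose_eq_transpose_of_trivial]
  have hdet : h.det ≠ 0 := hpd.det_pos.ne'
  have hdP : P.det ≠ 0 := by
    intro h0
    apply hdet
    rw [hP', det_mul, h0, mul_zero]
  have hu : IsUnit P.det := isUnit_iff_ne_zero.2 hdP
  exact ⟨P, P⁻¹, hP', nonsing_inv_mul P hu, mul_nonsing_inv P hu⟩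

end fac

variable {n : ℕ}

theorem trace_sq {h P K : Matrix (Fin n) (Fin n) ℝ} (hP : h = Pᵀ * P) (hK : Kᵀ = K) :
    trace (h * K * h * K) = ∑ i, ∑ j, ((P * K * Pᵀ) i j) ^ 2 := by
  have h1 : trace (h * K * h * K) = trace ((P * K * Pᵀ) * (P * K * Pᵀ)) := by
    rw [hP]
    have : Pᵀ * P * K * (Pᵀ * P) * K = Pᵀ * (P * K * Pᵀ * P * K) := by
      simp only [Matrix.mul_assoc]
    rw [this, trace_mul_comm]
    simp only [Matrix.mul_assoc]
  have hsy : (P * K * Pᵀ)ᵀ = P * K * Pᵀ := by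
    rw [transpose_mul, transpose_mul, transpose_transpose, hK, Matrix.mul_assoc]
  rw [h1, trace]
  refine Finset.sum_congr rfl fun i _ => ?_
  rw [diag_apply, Matrix.mul_apply]
  refine Finset.sum_congr rfl fun j _ => ?_
  have : (P * K * Pᵀ) j i = (P * K * Pᵀ) i j := by
    conv_lhs => rw [← hsy]
    rfl
  rw [this, sq]

theorem trace_sq_nonneg {h P K : Matrix (Fin n) (Fin n) ℝ} (hP : h = Pᵀ * P) (hK : Kᵀ = K) :
    0 ≤ trace (h * K * h * K) := by
  rw [trace_sq hP hK]; positivity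

theorem eq_zero_of_trace_sq {h P Q K : Matrix (Fin n) (Fin n) ℝ} (hP : h = Pᵀ * P)
    (hQ : Q * P = 1) (hK : Kᵀ = K) (h0 : trace (h * K * h * K) = 0) : K = 0 := by
  rw [trace_sq hP hK] at h0
  have h1 : P * K * Pᵀ = 0 := by
    ext i j
    have h2 := (Finset.sum_eq_zero_iff_of_nonneg (fun i _ => by positivity)).1 h0 i
      (Finset.mem_univ i)
    have h3 := (Finset.sum_eq_zero_iff_of_nonneg (fun j _ => by positivity)).1 h2 j
      (Finset.mem_univ j)
    simpa using h3
  have h4 : Pᵀ * Qᵀ = 1 := by rw [← transpose_mul, hQ, transpose_one]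
  calc K = (Q * P) * K * (Pᵀ * Qᵀ) := by rw [hQ, h4, Matrix.one_mul, Matrix.mul_one]
    _ = Q * (P * K * Pᵀ) * Qᵀ := by simp only [Matrix.mul_assoc]
    _ = 0 := by rw [h1]; simp

/-- trace of the product of a positive definite and a negative semidefinite matrix -/
theorem trace_nonpos {h P M : Matrix (Fin n) (Fin n) ℝ} (hP : h = Pᵀ * P)
    (hM : ∀ v : Fin n → ℝ, v ⬝ᵥ (M *ᵥ v) ≤ 0) : trace (h * M) ≤ 0 := by
  have h1 : trace (h * M) = trace (P * M * Pᵀ) := by
    rw [hP, Matrix.mul_assoc, trace_mul_comm]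
  rw [h1, trace]
  refine Finset.sum_nonpos fun i _ => ?_
  have h2 : diag (P * M * Pᵀ) i = (fun k => P i k) ⬝ᵥ (M *ᵥ (fun k => P i k)) := by
    rw [diag_apply, Matrix.mul_assoc, Matrix.mul_apply]
    simp only [dotProduct, mulVec, Matrix.mul_apply, transpose_apply]
  rw [h2]
  exact hM _

theorem C_zero_of_nC {h P Q : Matrix (Fin n) (Fin n) ℝ} {C : Fin n → Matrix (Fin n) (Fin n) ℝ}
    (hP : h = Pᵀ * P) (hQ : Q * P = 1) (hC : ∀ j, (C j)ᵀ = C j) (h0 : nC h C = 0) :
    ∀ j, C j = 0 := by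
  let K : Fin n → Matrix (Fin n) (Fin n) ℝ := fun a => ∑ j, P a j • C j
  have hK : ∀ a, (K a)ᵀ = K a := by
    intro a
    simp only [K, transpose_sum, transpose_smul, hC]
  have h1 : nC h C = ∑ a, trace (h * K a * h * K a) := by
    have e1 : nC h C = trace (P * tau h C * Pᵀ) := by
      rw [nC]
      conv_lhs => rw [hP]
      rw [Matrix.mul_assoc, trace_mul_comm, ← hP]
    rw [e1, trace]
    refine Finset.sum_congr rfl fun a _ => ?_
    rw [diag_apply, Matrix.mul_apply]
    simp only [K, Matrix.mul_sum, trace_sum, Matrix.mul_smul, Matrix.smul_mul,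
      trace_smul, smul_eq_mul, Matrix.mul_apply (M := P), transpose_apply, Finset.sum_mul]
    refine Finset.sum_congr rfl fun j _ => Finset.sum_congr rfl fun i _ => ?_
    have hsy : trace (h * C i * h * C j) = trace (h * C j * h * C i) :=
      congrFun (congrFun (tau_symm h C) j) i
    simp only [tau, of_apply]
    rw [hsy]
    ring
  rw [h1] at h0
  have h2 : ∀ a, K a = 0 := fun a =>
    eq_zero_of_trace_sq hP hQ (hK a)
      ((Finset.sum_eq_zero_iff_of_nonneg (fun a _ => trace_sq_nonneg hP (hK a))).1 h0 a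
        (Finset.mem_univ a))
  intro j
  have h3 : ∑ a, Q j a • K a = C j := by
    simp only [K, Finset.smul_sum, smul_smul]
    rw [Finset.sum_comm]
    have : ∀ i, ∑ a, (Q j a * P a i) • C i = (if j = i then (1 : ℝ) else 0) • C i := by
      intro i
      rw [← Finset.sum_smul]
      congr 1
      have := congrFun (congrFun hQ j) i
      rw [Matrix.mul_apply, Matrix.one_apply] at this
      exact this
    rw [Finset.sum_congr rfl fun i _ => this i]
    simp
  rw [← h3]
  simp [h2]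

end H69Conf
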