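import Pool.Agent.H69R3.Conf.Alg
import Pool.Agent.H69R3.Conf.Psd
import Pool.Agent.H69R3.Conf.Flow2

set_option autoImplicit false

open Finset Matrix Filter Topology

namespace H69Conf

variable {n : ℕ}

/-- evaluation -/
noncomputable def ev (y : Om n) : SR n →+* ℝ :=
  (((Pi.evalAlgHom ℝ (fun _ : Om n => ℝ) y).comp (SR n).val) : SR n →ₐ[ℝ] ℝ).toRingHom

theorem ev_apply (y : Om n) (f : SR n) : ev y f = f.1 y := rfl

theorem isUnit_SR (f : SR n) (hf : ∀ y : Om n, f.1 y ≠ 0) : IsUnit f := by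
  have hs : ContDiffOn ℝ ((⊤ : ℕ∞) : WithTop ℕ∞) (fun y => (ex f.1 y)⁻¹) (Om n) :=
    (smoothSR f).inv fun y hy => by rw [ex_of_mem _ hy]; exact hf _
  refine IsUnit.of_mul_eq_one (mk _ hs) ?_
  apply ext_SR
  rintro ⟨y, hy⟩
  show f.1 ⟨y, hy⟩ * (ex f.1 y)⁻¹ = 1
  rw [ex_of_mem _ hy]
  exact mul_inv_cancel₀ (hf _)

section
variable {ι : Type*} [Fintype ι] [DecidableEq ι] {R S : Type*} [CommRing R] [CommRing S]

omit [DecidableEq ι] in
theorem map_trace' (φ : R →+* S) (M : Matrix ι ι R) : φ (trace M) = trace (M.map φ) := by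
  simp [trace]

omit [DecidableEq ι] in
theorem map_cI (φ : R →+* S) (h : Matrix ι ι R) (C : ι → Matrix ι ι R) (j : ι) :
    φ (cI h C j) = cI (h.map φ) (fun j => (C j).map φ) j := by
  rw [cI, cI, map_trace', Matrix.map_mul]

omit [DecidableEq ι] in
theorem map_nI (φ : R →+* S) (h : Matrix ι ι R) (C : ι → Matrix ι ι R) :
    φ (nI h C) = nI (h.map φ) (fun j => (C j).map φ) := by
  simp only [nI, dotProduct, mulVec, map_sum, map_mul, map_cI, Matrix.map_apply]

omit [DecidableEq ι] in
theorem map_tau (φ : R →+* S) (h : Matrix ι ι R) (C : ι → Matrix ι ι R) :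
    (tau h C).map φ = tau (h.map φ) (fun j => (C j).map φ) := by
  ext i j
  simp only [tau, Matrix.map_apply, of_apply, map_trace', Matrix.map_mul]

omit [DecidableEq ι] in
theorem map_nC (φ : R →+* S) (h : Matrix ι ι R) (C : ι → Matrix ι ι R) :
    φ (nC h C) = nC (h.map φ) (fun j => (C j).map φ) := by
  rw [nC, nC, map_trace', Matrix.map_mul, map_tau]

omit [DecidableEq ι] in
theorem cI_smul (s : R) (h : Matrix ι ι R) (C : ι → Matrix ι ι R) (j : ι) :
    cI h (fun j => s • C j) j = s * cI h C j := by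
  rw [cI, cI, Matrix.mul_smul, trace_smul, smul_eq_mul]

omit [DecidableEq ι] in
theorem nI_smul (s : R) (h : Matrix ι ι R) (C : ι → Matrix ι ι R) :
    nI h (fun j => s • C j) = s ^ 2 * nI h C := by
  simp only [nI, dotProduct, mulVec, cI_smul, Finset.mul_sum]
  refine Finset.sum_congr rfl fun i _ => Finset.sum_congr rfl fun j _ => ?_
  ring

omit [DecidableEq ι] in
theorem nC_smul (s : R) (h : Matrix ι ι R) (C : ι → Matrix ι ι R) :
    nC h (fun j => s • C j) = s ^ 2 * nC h C := by
  have : tau h (fun j => s • C j) = s ^ 2 • tau h C := by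
    ext i j
    simp only [tau, of_apply, Matrix.smul_apply, Matrix.mul_smul, Matrix.smul_mul, trace_smul,
      smul_eq_mul]
    ring
  rw [nC, nC, this, Matrix.mul_smul, trace_smul, smul_eq_mul]

end

/-- the energy in the ring -/
noncomputable def EE {E : (Fin n → ℝ) → ℝ} (H : Mink E) : SR n := mk E H.smooth

/-- metric -/
noncomputable def gM {E : (Fin n → ℝ) → ℝ} (H : Mink E) : Matrix (Fin n) (Fin n) (SR n) :=
  Matrix.of fun i j => D i (D j (EE H))

/-- third derivatives -/
noncomputable def CM {E : (Fin n → ℝ) → ℝ} (H : Mink E) (j : Fin n) :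
    Matrix (Fin n) (Fin n) (SR n) :=
  Matrix.of fun k l => D j (D k (D l (EE H)))

/-- inverse metric -/
noncomputable def hM {E : (Fin n → ℝ) → ℝ} (H : Mink E) : Matrix (Fin n) (Fin n) (SR n) :=
  (gM H)⁻¹

variable {E : (Fin n → ℝ) → ℝ} (H : Mink E)

theorem EE_apply (y : Om n) : (EE H).1 y = E y.1 := rfl

theorem dE_apply (i : Fin n) (y : Om n) : (D i (EE H)).1 y = pd i E y.1 := by
  rw [EE, D_mk]; rfl

theorem ddE_apply (i j : Fin n) (y : Om n) : (D i (D j (EE H))).1 y = pd i (pd j E) y.1 := by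
  rw [EE, D_mk, D_mk]; rfl

theorem dddE_apply (i j k : Fin n) (y : Om n) :
    (D i (D j (D k (EE H)))).1 y = pd i (pd j (pd k E)) y.1 := by
  rw [EE, D_mk, D_mk, D_mk]; rfl

theorem gM_symm : (gM H)ᵀ = gM H := by
  ext i j
  simp only [transpose_apply, gM, of_apply]
  rw [D_comm]

theorem CM_symm (j : Fin n) : (CM H j)ᵀ = CM H j := by
  ext k l
  simp only [transpose_apply, CM, of_apply]
  rw [D_comm l k]

theorem CM_symm2 (j k l : Fin n) : CM H j k l = CM H k j l := by
  simp only [CM, of_apply]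
  rw [D_comm]

theorem det_ne (y : Om n) : ((gM H).map (ev y)).det ≠ 0 := by
  intro h0
  obtain ⟨v, hv, hv0⟩ := Matrix.exists_mulVec_eq_zero_iff.2 h0
  have h1 := H.conv y.1 y.2 v hv
  have h2 : ∑ i, ∑ j, pd i (pd j E) y.1 * v i * v j = v ⬝ᵥ (((gM H).map (ev y)) *ᵥ v) := by
    simp only [dotProduct, mulVec, Finset.mul_sum, Matrix.map_apply, gM, of_apply, ev_apply,
      ddE_apply]
    refine Finset.sum_congr rfl fun i _ => Finset.sum_congr rfl fun j _ => ?_
    ring
  rw [h2, hv0, dotProduct_zero] at h1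
  exact lt_irrefl _ h1

theorem isUnit_det : IsUnit (gM H).det := by
  apply isUnit_SR
  intro y
  have : (gM H).det.1 y = ((gM H).map (ev y)).det := by
    rw [← ev_apply, RingHom.map_det]; rfl
  rw [this]
  exact det_ne H y

theorem hg : hM H * gM H = 1 := nonsing_inv_mul _ (isUnit_det H)

theorem gh : gM H * hM H = 1 := mul_nonsing_inv _ (isUnit_det H)

theorem hM_symm : (hM H)ᵀ = hM H := by
  rw [hM, transpose_nonsing_inv, gM_symm]

theorem euler2' (l : Fin n) : ∑ i, D l (D i (EE H)) * yc i = D l (EE H) := by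
  apply ext_SR
  intro y
  have h1 : (∑ i, D l (D i (EE H)) * yc i).1 y = ∑ i, ev y (D l (D i (EE H))) * ev y (yc i) := by
    rw [← ev_apply]; simp only [map_sum, map_mul]
  rw [h1, dE_apply, ← H.euler2 y.2 l]
  refine Finset.sum_congr rfl fun i _ => ?_
  rw [ev_apply, ev_apply, D_comm, ddE_apply, mul_comm]
  rfl

/-- a covector as ring elements -/
noncomputable def bb (b : Fin n → ℝ) : Fin n → SR n := fun i => algebraMap ℝ (SR n) (b i)

/-- linear function -/
noncomputable def BB (b : Fin n → ℝ) : SR n := ∑ i, bb b i * yc i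

theorem D_BB (b : Fin n → ℝ) (j : Fin n) : D j (BB b) = algebraMap ℝ (SR n) (b j) := by
  simp only [BB, bb, map_sum, Derivation.leibniz, Derivation.map_algebraMap, smul_eq_mul,
    D_yc, mul_ite, mul_one, mul_zero, add_zero]
  simp

theorem gy : gM H *ᵥ yc = fun i => D i (EE H) := by
  ext1 l
  simp only [mulVec, dotProduct, gM, of_apply]
  exact euler2' H l

theorem Cy (j : Fin n) : CM H j *ᵥ yc = 0 := by
  ext1 k
  have h1 := congrArg (fun z => D j z) (euler2' H k)
  simp only [map_sum, Derivation.leibniz, smul_eq_mul, D_yc, Finset.sum_add_distrib, mul_ite,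
    mul_one, mul_zero, Finset.sum_ite_eq', Finset.mem_univ, if_true] at h1
  simp only [mulVec, dotProduct, CM, of_apply, Pi.zero_apply]
  have h2 : ∑ x, D j (D k (D x (EE H))) * yc x = ∑ x, yc x * D j (D k (D x (EE H))) :=
    Finset.sum_congr rfl fun i _ => mul_comm _ _
  rw [h2]
  have h3 : D k (D j (EE H)) = D j (D k (EE H)) := D_comm _ _ _
  rw [h3] at h1
  linear_combination h1

end H69Conf
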