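import Pool.Agent.H69R3.Conf.Fiber

set_option autoImplicit false

open Finset Matrix Filter Topology

namespace H69Conf

variable {n : ℕ} {E : (Fin n → ℝ) → ℝ}

/-- the hypotheses on the vector field `W = E * g⁻¹ b` -/
structure WData (H : Mink E) (b : Fin n → ℝ) (W : Fin n → (Fin n → ℝ) → ℝ) : Prop where
  smooth : ∀ i, ContDiffOn ℝ ((⊤ : ℕ∞) : WithTop ℕ∞) (W i) (Om n)
  hg : ∀ y ∈ Om n, ∀ l, ∑ i, pd l (pd i E) y * W i y = E y * b l
  P : ∀ y ∈ Om n, ∀ j k l, ∑ i, pd i E y * pd j (pd k (pd l (W i))) y = 0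

variable {H : Mink E} {b : Fin n → ℝ} {W : Fin n → (Fin n → ℝ) → ℝ}

theorem WData.he (w : WData H b W) :
    ∀ y ∈ Om n, ∑ i, W i y * pd i E y = E y * ∑ i, b i * y i := by
  intro y hy
  have h1 : ∀ i, W i y * pd i E y = ∑ l, W i y * (y l * pd l (pd i E) y) := by
    intro i
    rw [← Finset.mul_sum, H.euler2 hy i]
  rw [Finset.sum_congr rfl fun i _ => h1 i, Finset.sum_comm, Finset.mul_sum]
  refine Finset.sum_congr rfl fun l _ => ?_
  have h2 := w.hg y hy l
  have h3 : ∑ i, W i y * (y l * pd l (pd i E) y) = y l * ∑ i, pd l (pd i E) y * W i y := by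
    rw [Finset.mul_sum]
    exact Finset.sum_congr rfl fun i _ => by ring
  rw [h3, h2]; ring

/-- `W` in the ring -/
noncomputable def VV (w : WData H b W) (i : Fin n) : SR n := mk (W i) (w.smooth i)

/-- the derivation along `W` -/
noncomputable def dl (w : WData H b W) : Derivation ℝ (SR n) (SR n) := ∑ m, VV w m • D m

theorem dl_apply (w : WData H b W) (f : SR n) : dl w f = ∑ m, VV w m * D m f := by
  have : ∀ s : Finset (Fin n), (∑ m ∈ s, VV w m • D m : Derivation ℝ (SR n) (SR n)) f =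
      ∑ m ∈ s, VV w m * D m f := by
    intro s
    induction s using Finset.induction_on with
    | empty => simp
    | insert a s ha ih =>
      rw [Finset.sum_insert ha, Finset.sum_insert ha, Derivation.add_apply, ih]
      rfl
  exact this Finset.univ

theorem H1' (w : WData H b W) (l : Fin n) :
    ∑ i, D l (D i (EE H)) * VV w i = EE H * algebraMap ℝ (SR n) (b l) := by
  apply ext_SR
  intro y
  have h1 : (∑ i, D l (D i (EE H)) * VV w i).1 y =
      ∑ i, ev y (D l (D i (EE H))) * ev y (VV w i) := by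
    rw [← ev_apply]; simp only [map_sum, map_mul]
  rw [h1]
  simp only [ev_apply, ddE_apply]
  exact w.hg y.1 y.2 l

theorem H0' (w : WData H b W) : ∑ i, D i (EE H) * VV w i = EE H * BB b := by
  apply ext_SR
  intro y
  have h1 : (∑ i, D i (EE H) * VV w i).1 y = ∑ i, ev y (D i (EE H)) * ev y (VV w i) := by
    rw [← ev_apply]; simp only [map_sum, map_mul]
  have h2 : (EE H * BB b).1 y = E y.1 * ∑ i, b i * y.1 i := by
    have : (EE H * BB b).1 y = ev y (EE H) * ∑ i, ev y (bb b i) * ev y (yc i) := by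
      rw [← ev_apply, BB]; simp only [map_sum, map_mul]
    rw [this]; rfl
  rw [h1, h2, ← w.he y.1 y.2]
  refine Finset.sum_congr rfl fun i _ => ?_
  rw [ev_apply, ev_apply, dE_apply, mul_comm]
  rfl

theorem P' (w : WData H b W) (j k l : Fin n) :
    ∑ i, D i (EE H) * D j (D k (D l (VV w i))) = 0 := by
  apply ext_SR
  intro y
  have h1 : (∑ i, D i (EE H) * D j (D k (D l (VV w i)))).1 y =
      ∑ i, ev y (D i (EE H)) * ev y (D j (D k (D l (VV w i)))) := by
    rw [← ev_apply]; simp only [map_sum, map_mul]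
  rw [h1]
  have h2 := w.P y.1 y.2 j k l
  refine Eq.trans ?_ h2
  refine Finset.sum_congr rfl fun i _ => ?_
  rw [ev_apply, ev_apply, dE_apply]
  have h3 : (D j (D k (D l (VV w i)))).1 y = pd j (pd k (pd l (W i))) y.1 := by
    rw [VV, D_mk, D_mk, D_mk]; rfl
  rw [h3]

/-- the Jacobian of `W` -/
noncomputable def TT (w : WData H b W) : Matrix (Fin n) (Fin n) (SR n) :=
  Matrix.of fun i l => D l (VV w i)

theorem dat (w : WData H b W) :
    Dat (dl w) (gM H) (hM H) (TT w) (CM H) (bb b) (fun i => D i (EE H)) yc (BB b) where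
  hsym := hM_symm H
  hg := hg H
  gh := gh H
  Csym := CM_symm H
  Csym2 := CM_symm2 H
  dC := by
    intro j
    have tr := transport (fun i => (D i : Derivation ℝ (SR n) (SR n))) D_comm (EE H) (VV w) b
      (BB b) (D_BB b) (H1' w) (H0' w) (P' w) j
    refine Matrix.ext fun k l => ?_
    have t := tr k l
    simp only [Finset.sum_add_distrib] at t
    simp only [Matrix.smul_apply, smul_eq_mul, dm_apply, Matrix.sub_apply, Matrix.neg_apply,
      Matrix.sum_apply, Matrix.mul_apply, transpose_apply, dl_apply, CM, TT, of_apply]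
    have e1 : ∑ m, D j (D k (D m (EE H))) * D l (VV w m) =
        ∑ m, D m (D j (D k (EE H))) * D l (VV w m) :=
      Finset.sum_congr rfl fun m _ => by rw [D_comm k m, D_comm j m]
    have e2 : ∑ m, D k (VV w m) * D j (D m (D l (EE H))) =
        ∑ m, D m (D j (D l (EE H))) * D k (VV w m) :=
      Finset.sum_congr rfl fun m _ => by rw [D_comm j m, mul_comm]
    have e3 : ∑ m, D j (VV w m) * D m (D k (D l (EE H))) =
        ∑ m, D m (D k (D l (EE H))) * D j (VV w m) :=
      Finset.sum_congr rfl fun m _ => by rw [mul_comm]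
    rw [e1, e2, e3]
    linear_combination t
  dg := by
    refine Matrix.ext fun k l => ?_
    have h1 := congrArg (fun z => D l z) (H1' w k)
    simp only [map_sum, Derivation.leibniz, smul_eq_mul, Derivation.map_algebraMap, mul_zero,
      zero_add, Finset.sum_add_distrib] at h1
    simp only [dm_apply, Matrix.sub_apply, vecMulVec_apply, Matrix.mul_apply, dl_apply, gM, TT,
      of_apply, bb]
    have e1 : ∑ m, VV w m * D l (D k (D m (EE H))) = ∑ m, VV w m * D m (D k (D l (EE H))) :=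
      Finset.sum_congr rfl fun m _ => by
        rw [D_comm k m, D_comm l m, D_comm l k]
    rw [e1] at h1
    linear_combination h1
  hy := by
    rw [← gy, mulVec_mulVec, hg, one_mulVec]
  Cy := Cy H

theorem dl_EE (w : WData H b W) : dl w (EE H) = EE H * BB b := by
  rw [dl_apply, ← H0' w]
  exact Finset.sum_congr rfl fun i _ => mul_comm _ _

/-- the invariants -/
noncomputable def NI (H : Mink E) : SR n := EE H * nI (hM H) (CM H)
noncomputable def NC (H : Mink E) : SR n := EE H * nC (hM H) (CM H)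

theorem two_cancel {a c : SR n} (h : 2 * a = 2 * c) : a = c := by
  apply ext_SR
  intro y
  have h1 := congrArg (fun z => ev y z) h
  simp only [map_mul, map_ofNat] at h1
  have : ev y a = ev y c := by linarith
  exact this

theorem dNI (w : WData H b W) : dl w (NI H) = 0 := by
  rw [NI, Derivation.leibniz, (dat w).dnI, dl_EE, smul_eq_mul, smul_eq_mul]
  ring

theorem dNC (w : WData H b W) : dl w (NC H) = 0 := by
  rw [NC, Derivation.leibniz, two_cancel (dat w).dnC, dl_EE, smul_eq_mul, smul_eq_mul]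
  ring

theorem inv_of_dl (w : WData H b W) {f : SR n} (hf : dl w f = 0) :
    ∀ y ∈ Om n, ∑ i, W i y * pd i (ex f.1) y = 0 := by
  intro y hy
  have h1 := congrArg (fun z => ev ⟨y, hy⟩ z) (dl_apply w f)
  simp only [hf, map_zero, map_sum, map_mul] at h1
  exact h1.symm

/-- real matrices -/
noncomputable def gR (H : Mink E) (y : Om n) : Matrix (Fin n) (Fin n) ℝ := (gM H).map (ev y)
noncomputable def hR (H : Mink E) (y : Om n) : Matrix (Fin n) (Fin n) ℝ := (hM H).map (ev y)
noncomputable def CR (H : Mink E) (y : Om n) (j : Fin n) : Matrix (Fin n) (Fin n) ℝ :=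
  (CM H j).map (ev y)

theorem hgR (y : Om n) : hR H y * gR H y = 1 := by
  rw [hR, gR, ← Matrix.map_mul, hg, Matrix.map_one _ (map_zero _) (map_one _)]

theorem ghR (y : Om n) : gR H y * hR H y = 1 := by
  rw [hR, gR, ← Matrix.map_mul, gh, Matrix.map_one _ (map_zero _) (map_one _)]

theorem hR_symm (y : Om n) : (hR H y)ᵀ = hR H y := by
  rw [hR, ← transpose_map, hM_symm]

theorem CR_symm (y : Om n) (j : Fin n) : (CR H y j)ᵀ = CR H y j := by
  rw [CR, ← transpose_map, CM_symm]

theorem gR_apply (y : Om n) (i j : Fin n) : gR H y i j = pd i (pd j E) y.1 := by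
  rw [gR, Matrix.map_apply, gM, of_apply, ev_apply, ddE_apply]

theorem CR_apply (y : Om n) (i j k : Fin n) : CR H y i j k = pd i (pd j (pd k E)) y.1 := by
  rw [CR, Matrix.map_apply, CM, of_apply, ev_apply, dddE_apply]

theorem gR_scale (y : Om n) (t : ℝ) (ht : 0 < t) :
    gR H ⟨t • y.1, smul_mem_Om y.2 ht.ne'⟩ = gR H y := by
  ext i j
  rw [gR_apply, gR_apply]
  have := pd_scale (F := pd j E) 1 (smooth_pd j H.smooth) (fun y hy t ht => by
    rw [H.grad_scale j y hy t ht, zpow_one]) i y.1 y.2 t ht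
  simpa using this

theorem CR_scale (y : Om n) (t : ℝ) (ht : 0 < t) (j : Fin n) :
    CR H ⟨t • y.1, smul_mem_Om y.2 ht.ne'⟩ j = t⁻¹ • CR H y j := by
  ext k l
  rw [CR_apply, Matrix.smul_apply, CR_apply, smul_eq_mul]
  have := pd_scale (F := pd k (pd l E)) 0 (smooth_pd k (smooth_pd l H.smooth))
    (fun y hy t ht => by
      have := gR_scale (H := H) ⟨y, hy⟩ t ht
      have h2 := congrFun (congrFun this k) l
      rw [gR_apply, gR_apply] at h2
      rw [h2, zpow_zero, one_mul]) j y.1 y.2 t ht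
  simpa using this

theorem hR_scale (y : Om n) (t : ℝ) (ht : 0 < t) :
    hR H ⟨t • y.1, smul_mem_Om y.2 ht.ne'⟩ = hR H y := by
  calc hR H ⟨t • y.1, smul_mem_Om y.2 ht.ne'⟩
      = hR H ⟨t • y.1, smul_mem_Om y.2 ht.ne'⟩ * (gR H y * hR H y) := by
        rw [ghR, Matrix.mul_one]
    _ = (hR H ⟨t • y.1, smul_mem_Om y.2 ht.ne'⟩ * gR H ⟨t • y.1, smul_mem_Om y.2 ht.ne'⟩)
          * hR H y := by rw [gR_scale y t ht, Matrix.mul_assoc]
    _ = hR H y := by rw [hgR, Matrix.one_mul]

theorem NI_apply (y : Om n) : (NI H).1 y = E y.1 * nI (hR H y) (CR H y) := by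
  rw [← ev_apply, NI, map_mul, map_nI]; rfl

theorem NC_apply (y : Om n) : (NC H).1 y = E y.1 * nC (hR H y) (CR H y) := by
  rw [← ev_apply, NC, map_mul, map_nC]; rfl

theorem NI_hom : ∀ y ∈ Om n, ∀ t : ℝ, 0 < t → ex (NI H).1 (t • y) = ex (NI H).1 y := by
  intro y hy t ht
  rw [ex_of_mem _ (smul_mem_Om hy ht.ne'), ex_of_mem _ hy, NI_apply, NI_apply,
    hR_scale ⟨y, hy⟩ t ht]
  have : CR H ⟨t • y, smul_mem_Om hy ht.ne'⟩ = fun j => t⁻¹ • CR H ⟨y, hy⟩ j :=
    funext fun j => CR_scale ⟨y, hy⟩ t ht j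
  rw [this, nI_smul]
  simp only
  rw [H.hom y hy t ht]
  field_simp

theorem NC_hom : ∀ y ∈ Om n, ∀ t : ℝ, 0 < t → ex (NC H).1 (t • y) = ex (NC H).1 y := by
  intro y hy t ht
  rw [ex_of_mem _ (smul_mem_Om hy ht.ne'), ex_of_mem _ hy, NC_apply, NC_apply,
    hR_scale ⟨y, hy⟩ t ht]
  have : CR H ⟨t • y, smul_mem_Om hy ht.ne'⟩ = fun j => t⁻¹ • CR H ⟨y, hy⟩ j :=
    funext fun j => CR_scale ⟨y, hy⟩ t ht j
  rw [this, nC_smul]
  simp only
  rw [H.hom y hy t ht]
  field_simp

theorem hR_pos (y : Om n) (v : Fin n → ℝ) (hv : v ≠ 0) : 0 < v ⬝ᵥ (hR H y *ᵥ v) := by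
  set u := hR H y *ᵥ v with hu
  have hv' : v = gR H y *ᵥ u := by rw [hu, mulVec_mulVec, ghR, one_mulVec]
  have hu0 : u ≠ 0 := by
    intro h0
    apply hv
    rw [hv', h0, mulVec_zero]
  have h1 := H.conv y.1 y.2 u hu0
  have h2 : ∑ i, ∑ j, pd i (pd j E) y.1 * u i * u j = u ⬝ᵥ (gR H y *ᵥ u) := by
    simp only [dotProduct, mulVec, Finset.mul_sum, gR_apply]
    refine Finset.sum_congr rfl fun i _ => Finset.sum_congr rfl fun j _ => ?_
    ring
  rw [h2, ← hv', dotProduct_comm] at h1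
  exact h1

theorem exists_PQ (y : Om n) : ∃ P Q : Matrix (Fin n) (Fin n) ℝ,
    hR H y = Pᵀ * P ∧ Q * P = 1 ∧ P * Q = 1 :=
  exists_factor (hR_symm y) (hR_pos y)

end H69Conf
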