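import Pool.Agent.H69R3.Conf.Fiber2

set_option autoImplicit false

open Finset Matrix Filter Topology

namespace H69Conf

variable {n : ℕ} {E : (Fin n → ℝ) → ℝ}

/-- a homogeneous function of degree zero attains its maximum -/
theorem exists_max (hn : 1 ≤ n) {f : (Fin n → ℝ) → ℝ}
    (hf : ContDiffOn ℝ ((⊤ : ℕ∞) : WithTop ℕ∞) f (Om n))
    (hhom : ∀ y ∈ Om n, ∀ t : ℝ, 0 < t → f (t • y) = f y) :
    ∃ y0 ∈ Om n, ∀ y ∈ Om n, f y ≤ f y0 := by
  have hSO : Metric.sphere (0 : Fin n → ℝ) 1 ⊆ Om n := by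
    intro y hy h0
    rw [h0] at hy
    simp at hy
  have hne : (Metric.sphere (0 : Fin n → ℝ) 1).Nonempty := by
    haveI : Nonempty (Fin n) := ⟨⟨0, hn⟩⟩
    haveI : Nontrivial (Fin n → ℝ) := Function.nontrivial
    exact NormedSpace.sphere_nonempty.2 zero_le_one
  obtain ⟨y0, hy0, hmax⟩ := (isCompact_sphere (0 : Fin n → ℝ) 1).exists_isMaxOn hne
    (hf.continuousOn.mono hSO)
  refine ⟨y0, hSO hy0, fun y hy => ?_⟩
  have hy' : ‖y‖ ≠ 0 := norm_ne_zero_iff.2 hy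
  have h1 : ‖y‖⁻¹ • y ∈ Metric.sphere (0 : Fin n → ℝ) 1 := by
    simp [norm_smul, hy']
  have h2 := hmax h1
  have h3 : 0 < ‖y‖⁻¹ := inv_pos.2 (norm_pos_iff.2 hy)
  rw [← hhom y hy _ h3]
  exact h2

theorem pd_zero_of_max {f : (Fin n → ℝ) → ℝ} {y0 : Fin n → ℝ} (hy0 : y0 ∈ Om n)
    (hmax : ∀ y ∈ Om n, f y ≤ f y0) (k : Fin n) : pd k f y0 = 0 := by
  have hloc : IsLocalMax f y0 := by
    filter_upwards [(isOpen_Om n).mem_nhds hy0] with y hy using hmax y hy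
  rw [pd, hloc.fderiv_eq_zero]
  rfl

theorem hess_nonpos {f : (Fin n → ℝ) → ℝ}
    (hf : ContDiffOn ℝ ((⊤ : ℕ∞) : WithTop ℕ∞) f (Om n)) {y0 : Fin n → ℝ} (hy0 : y0 ∈ Om n)
    (hmax : ∀ y ∈ Om n, f y ≤ f y0) (v : Fin n → ℝ) :
    ∑ j, v j * ∑ i, v i * pd i (pd j f) y0 ≤ 0 := by
  by_contra hcon
  push Not at hcon
  let φ : ℝ → ℝ := fun t => f (y0 + t • v)
  let ψ : ℝ → ℝ := fun t => ∑ j, v j * pd j f (y0 + t • v)
  have hcont : Continuous fun t : ℝ => y0 + t • v := by fun_prop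
  have hev : ∀ᶠ t in 𝓝 (0 : ℝ), y0 + t • v ∈ Om n := by
    apply hcont.continuousAt.eventually
    apply (isOpen_Om n).mem_nhds
    simpa using hy0
  have hline : ∀ t : ℝ, HasDerivAt (fun t : ℝ => y0 + t • v) v t := by
    intro t
    simpa using ((hasDerivAt_id t).smul_const v).const_add y0
  have hφ : ∀ᶠ t in 𝓝 (0 : ℝ), HasDerivAt φ (ψ t) t := by
    filter_upwards [hev] with t ht using hasDerivAt_along hf (hline t) ht
  have hderiv : deriv φ =ᶠ[𝓝 0] ψ := by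
    filter_upwards [hφ] with t ht using ht.deriv
  have hψ : HasDerivAt ψ (∑ j, v j * ∑ i, v i * pd i (pd j f) y0) 0 := by
    have h1 : ∀ j, HasDerivAt (fun t : ℝ => pd j f (y0 + t • v))
        (∑ i, v i * pd i (pd j f) y0) 0 := by
      intro j
      have h2 := hasDerivAt_along (smooth_pd j hf) (hline 0) (by simpa using hy0)
      simpa using h2
    exact HasDerivAt.fun_sum fun j _ => (h1 j).const_mul (v j)
  have hloc : IsLocalMax φ 0 := by
    filter_upwards [hev] with t ht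
    have := hmax _ ht
    simpa [φ] using this
  have h0 : deriv φ 0 = 0 := hloc.deriv_eq_zero
  have hdd : deriv (deriv φ) 0 > 0 := by
    rw [hderiv.deriv_eq, hψ.deriv]
    exact hcon
  have hc : ContinuousAt φ 0 := hφ.self_of_nhds.continuousAt
  have hmin : IsLocalMin φ 0 := isLocalMin_of_deriv_deriv_pos hdd h0 hc
  have hconst : φ =ᶠ[𝓝 0] fun _ => φ 0 := by
    filter_upwards [hmin, hloc] with t h1 h2 using le_antisymm h2 h1
  have hd0 : deriv φ =ᶠ[𝓝 0] fun _ => 0 := by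
    have := hconst.deriv
    filter_upwards [this] with t ht
    rw [ht]; simp
  rw [hd0.deriv_eq] at hdd
  simp at hdd

variable {H : Mink E} {b : Fin n → ℝ} {W : Fin n → (Fin n → ℝ) → ℝ}

theorem dm_gM (m : Fin n) : dm (D m) (gM H) = CM H m := rfl

theorem det_hom : ∀ y ∈ Om n, ∀ t : ℝ, 0 < t →
    ex (gM H).det.1 (t • y) = ex (gM H).det.1 y := by
  intro y hy t ht
  have key : ∀ z : Om n, (gM H).det.1 z = (gR H z).det := by
    intro z
    rw [← ev_apply, RingHom.map_det]; rfl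
  rw [ex_of_mem _ (smul_mem_Om hy ht.ne'), ex_of_mem _ hy, key, key, gR_scale ⟨y, hy⟩ t ht]

theorem exists_zero_I (hn : 1 ≤ n) : ∃ y : Om n, ∀ j, cI (hR H y) (CR H y) j = 0 := by
  obtain ⟨y0, hy0, hmax⟩ := exists_max hn (smoothSR (gM H).det) (det_hom (H := H))
  refine ⟨⟨y0, hy0⟩, fun j => ?_⟩
  have h1 : pd j (ex (gM H).det.1) y0 = 0 := pd_zero_of_max hy0 hmax j
  have h2 : (D j (gM H).det).1 ⟨y0, hy0⟩ = 0 := h1
  rw [jacobi' (D j) (gM H) (hM H) (gh H), dm_gM, ← ev_apply, map_mul] at h2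
  have h3 : ev ⟨y0, hy0⟩ (gM H).det ≠ 0 := by
    rw [RingHom.map_det]; exact det_ne H ⟨y0, hy0⟩
  have h4 := (mul_eq_zero.1 h2).resolve_left h3
  have h5 : ev ⟨y0, hy0⟩ (cI (hM H) (CM H) j) = 0 := h4
  rw [map_cI] at h5
  exact h5

theorem cI_zero (hn : 2 ≤ n) (hb : b ≠ 0) (w : WData H b W) (j : Fin n) :
    cI (hM H) (CM H) j = 0 := by
  obtain ⟨y0, hy0⟩ := exists_zero_I (H := H) (by omega)
  have hconst := const_of_inv hn H hb w.smooth w.hg w.he (smoothSR (NI H))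
    (inv_of_dl w (dNI w)) NI_hom
  have h0 : (NI H).1 y0 = 0 := by
    rw [NI_apply, nI]
    have : cI (hR H y0) (CR H y0) = 0 := funext hy0
    rw [this]; simp
  apply ext_SR
  intro y
  have h1 : (NI H).1 y = 0 := by
    have := hconst y.1 y.2 y0.1 y0.2
    rw [ex_of_mem _ y.2, ex_of_mem _ y0.2] at this
    rw [← h0]; exact this
  rw [NI_apply] at h1
  have h2 : nI (hR H y) (CR H y) = 0 := (mul_eq_zero.1 h1).resolve_left (H.pos y.1 y.2).ne'
  have h3 : cI (hR H y) (CR H y) = 0 := by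
    by_contra hne
    have := hR_pos (H := H) y _ hne
    rw [nI] at h2
    linarith
  have h4 : ev y (cI (hM H) (CM H) j) = cI (hR H y) (CR H y) j := by
    rw [map_cI]; rfl
  rw [← ev_apply, h4, h3]
  rfl

/-- Laplacian-type function -/
noncomputable def ww (H : Mink E) : SR n := ∑ a, D a (D a (EE H))

theorem ww_hom : ∀ y ∈ Om n, ∀ t : ℝ, 0 < t → ex (ww H).1 (t • y) = ex (ww H).1 y := by
  intro y hy t ht
  have key : ∀ z : Om n, (ww H).1 z = ∑ a, gR H z a a := by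
    intro z
    rw [← ev_apply, ww, map_sum]
    rfl
  rw [ex_of_mem _ (smul_mem_Om hy ht.ne'), ex_of_mem _ hy, key, key, gR_scale ⟨y, hy⟩ t ht]

/-- Hessian of `ww` -/
noncomputable def HW (H : Mink E) : Matrix (Fin n) (Fin n) (SR n) :=
  Matrix.of fun k l => D k (D l (ww H))

theorem trace_HW (hI : ∀ j, cI (hM H) (CM H) j = 0) :
    trace (hM H * HW H) = ∑ a, tau (hM H) (CM H) a a := by
  have hdh : ∀ a, dm (D a) (hM H) = -(hM H * CM H a * hM H) := by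
    intro a
    have h1 : dm (D a) (hM H) * gM H + hM H * dm (D a) (gM H) = 0 := by
      rw [← dm_mul, hg, dm_one]
    have h2 : dm (D a) (hM H) = -(hM H * dm (D a) (gM H)) * hM H := by
      have : dm (D a) (hM H) * gM H = -(hM H * dm (D a) (gM H)) :=
        eq_neg_of_add_eq_zero_left h1
      rw [← this, Matrix.mul_assoc, gh, Matrix.mul_one]
    rw [h2, dm_gM, Matrix.neg_mul]
  have h3 : ∀ a, trace (hM H * dm (D a) (CM H a)) = tau (hM H) (CM H) a a := by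
    intro a
    have h4 : D a (cI (hM H) (CM H) a) = 0 := by rw [hI a, map_zero]
    rw [cI, d_trace, dm_mul, trace_add, hdh a, Matrix.neg_mul, trace_neg] at h4
    rw [tau, of_apply]
    linear_combination h4
  rw [← Finset.sum_congr rfl fun a _ => h3 a, ← trace_sum, ← Matrix.mul_sum]
  congr 2
  refine Matrix.ext fun k l => ?_
  rw [Matrix.sum_apply]
  simp only [HW, ww, of_apply, dm_apply, CM, map_sum]
  refine Finset.sum_congr rfl fun a _ => ?_
  rw [D_comm l a, D_comm k a, D_comm l a, D_comm k a]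

theorem CR_zero (hn : 2 ≤ n) (hb : b ≠ 0) (w : WData H b W) (y : Om n) (j : Fin n) :
    CR H y j = 0 := by
  have hI := cI_zero hn hb w
  -- zero of C at the maximum of ww
  obtain ⟨y1, hy1, hmax⟩ := exists_max (by omega) (smoothSR (ww H)) (ww_hom (H := H))
  obtain ⟨P, Q, hP, hQ, hPQ⟩ := exists_PQ (H := H) ⟨y1, hy1⟩
  have ht := congrArg (fun z => ev ⟨y1, hy1⟩ z) (trace_HW hI)
  simp only [map_sum] at ht
  rw [map_trace', Matrix.map_mul] at ht
  have hHW : ∀ v : Fin n → ℝ, v ⬝ᵥ (((HW H).map (ev ⟨y1, hy1⟩)) *ᵥ v) ≤ 0 := by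
    intro v
    have h1 := hess_nonpos (smoothSR (ww H)) hy1 hmax v
    refine le_trans (le_of_eq ?_) h1
    simp only [dotProduct, mulVec, Finset.mul_sum]
    rw [Finset.sum_comm]
    refine Finset.sum_congr rfl fun j _ => Finset.sum_congr rfl fun i _ => ?_
    have h2 : (HW H).map (ev ⟨y1, hy1⟩) i j = pd i (pd j (ex (ww H).1)) y1 := by
      rw [Matrix.map_apply, HW, of_apply, ev_apply]
      conv_lhs => rw [← mk_ex (ww H)]
      rw [D_mk, D_mk]; rfl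
    rw [h2]; ring
  have h1 : trace (hR H ⟨y1, hy1⟩ * (HW H).map (ev ⟨y1, hy1⟩)) ≤ 0 :=
    trace_nonpos hP hHW
  have h2 : ∀ a, ev ⟨y1, hy1⟩ (tau (hM H) (CM H) a a) =
      trace (hR H ⟨y1, hy1⟩ * CR H ⟨y1, hy1⟩ a * hR H ⟨y1, hy1⟩ * CR H ⟨y1, hy1⟩ a) := by
    intro a
    have := congrFun (congrFun (map_tau (ev ⟨y1, hy1⟩) (hM H) (CM H)) a) a
    exact this
  have h3 : ∑ a, trace (hR H ⟨y1, hy1⟩ * CR H ⟨y1, hy1⟩ a * hR H ⟨y1, hy1⟩ *
      CR H ⟨y1, hy1⟩ a) ≤ 0 := by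
    rw [← Finset.sum_congr rfl fun a _ => h2 a, ← ht]
    exact h1
  have h4 : ∀ a, 0 ≤ trace (hR H ⟨y1, hy1⟩ * CR H ⟨y1, hy1⟩ a * hR H ⟨y1, hy1⟩ *
      CR H ⟨y1, hy1⟩ a) := fun a => trace_sq_nonneg hP (CR_symm _ a)
  have h5 : ∑ a, trace (hR H ⟨y1, hy1⟩ * CR H ⟨y1, hy1⟩ a * hR H ⟨y1, hy1⟩ *
      CR H ⟨y1, hy1⟩ a) = 0 := le_antisymm h3 (Finset.sum_nonneg fun a _ => h4 a)
  have h6 : ∀ a, CR H ⟨y1, hy1⟩ a = 0 := fun a =>
    eq_zero_of_trace_sq hP hQ (CR_symm _ a)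
      ((Finset.sum_eq_zero_iff_of_nonneg (fun a _ => h4 a)).1 h5 a (Finset.mem_univ a))
  -- NC vanishes
  have hconst := const_of_inv hn H hb w.smooth w.hg w.he (smoothSR (NC H))
    (inv_of_dl w (dNC w)) NC_hom
  have h0 : (NC H).1 ⟨y1, hy1⟩ = 0 := by
    rw [NC_apply]
    have : CR H ⟨y1, hy1⟩ = fun j => (0 : ℝ) • CR H ⟨y1, hy1⟩ j := by
      funext j; rw [h6 j, smul_zero]
    rw [this, nC_smul]; simp
  have h7 : (NC H).1 y = 0 := by
    have := hconst y.1 y.2 y1 hy1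
    rw [ex_of_mem _ y.2, ex_of_mem _ hy1] at this
    rw [← h0]; exact this
  rw [NC_apply] at h7
  have h8 : nC (hR H y) (CR H y) = 0 := (mul_eq_zero.1 h7).resolve_left (H.pos y.1 y.2).ne'
  obtain ⟨P', Q', hP', hQ', _⟩ := exists_PQ (H := H) y
  exact C_zero_of_nC hP' hQ' (CR_symm y) h8 j

/-- **Main fiberwise theorem** (dimension at least two). -/
theorem euclid_of_W (hn : 2 ≤ n) (hb : b ≠ 0) (w : WData H b W) :
    ∀ y ∈ Om n, ∀ i j k, pd i (pd j (pd k E)) y = 0 := by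
  intro y hy i j k
  have := CR_zero hn hb w ⟨y, hy⟩ i
  rw [← CR_apply (H := H) ⟨y, hy⟩, this]
  rfl

end H69Conf
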