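import Pool.Agent.H69R3.Conf.Defs
import Pool.Agent.H69R3.Conf.Fiber3

set_option autoImplicit false

open Finset Matrix Filter Topology

namespace H69Conf

open Pool.Agent.H69R3.Conf (IsFinsler IsSpray IsLandsberg IsBerwald conf)

variable {n : ℕ}

theorem pd_eq (i : Fin n) (f : (Fin n → ℝ) → ℝ) : Pool.Agent.H69R3.Conf.pd i f = pd i f := rfl

/-- third derivatives computed in the ring -/
theorem pd3_of_eq {F : (Fin n → ℝ) → ℝ} {f : SR n} (hF : ∀ y (hy : y ∈ Om n), F y = f.1 ⟨y, hy⟩)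
    (j k l : Fin n) {y : Fin n → ℝ} (hy : y ∈ Om n) :
    pd j (pd k (pd l F)) y = (D j (D k (D l f))).1 ⟨y, hy⟩ := by
  have h0 : ∀ z ∈ Om n, F z = ex f.1 z := fun z hz => by rw [hF z hz, ex_of_mem _ hz]
  have h1 : ∀ z ∈ Om n, pd l F z = ex (D l f).1 z := fun z hz => by
    rw [pd_congr l h0 hz, ex_of_mem _ hz]; rfl
  have h2 : ∀ z ∈ Om n, pd k (pd l F) z = ex (D k (D l f)).1 z := fun z hz => by
    rw [pd_congr k h1 hz, ex_of_mem _ hz]; rfl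
  rw [pd_congr j h2 hy]; rfl

section slice

variable {U : Set (Fin n → ℝ)} {F : (Fin n → ℝ) → (Fin n → ℝ) → ℝ}

/-- the square of `F` on pairs -/
def Phi (F : (Fin n → ℝ) → (Fin n → ℝ) → ℝ) : (Fin n → ℝ) × (Fin n → ℝ) → ℝ :=
  fun p => F p.1 p.2 ^ 2

theorem isOpen_UO (hU : IsOpen U) : IsOpen (U ×ˢ Om n) := hU.prod (isOpen_Om n)

theorem Phi_smooth (hF : IsFinsler U F) :
    ContDiffOn ℝ ((⊤ : ℕ∞) : WithTop ℕ∞) (Phi F) (U ×ˢ Om n) := hF.smooth.pow 2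

/-- joint vertical derivative -/
noncomputable def Psi (F : (Fin n → ℝ) → (Fin n → ℝ) → ℝ) (l : Fin n) :
    (Fin n → ℝ) × (Fin n → ℝ) → ℝ := fun p => fderiv ℝ (Phi F) p (0, eb l)

theorem Psi_smooth (hU : IsOpen U) (hF : IsFinsler U F) (l : Fin n) :
    ContDiffOn ℝ ((⊤ : ℕ∞) : WithTop ℕ∞) (Psi F l) (U ×ˢ Om n) :=
  ((Phi_smooth hF).fderiv_of_isOpen (isOpen_UO hU) (by norm_cast)).clm_apply contDiffOn_const

theorem vert_deriv (hU : IsOpen U) {Q : (Fin n → ℝ) × (Fin n → ℝ) → ℝ}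
    (hQ : ContDiffOn ℝ ((⊤ : ℕ∞) : WithTop ℕ∞) Q (U ×ˢ Om n)) {x y : Fin n → ℝ} (hx : x ∈ U)
    (hy : y ∈ Om n) (l : Fin n) :
    pd l (fun u => Q (x, u)) y = fderiv ℝ Q (x, y) (0, eb l) := by
  have hd : DifferentiableAt ℝ Q (x, y) :=
    (hQ.differentiableOn (by norm_cast)).differentiableAt ((isOpen_UO hU).mem_nhds ⟨hx, hy⟩)
  have h1 : HasFDerivAt (fun u : Fin n → ℝ => (x, u))
      ((0 : (Fin n → ℝ) →L[ℝ] (Fin n → ℝ)).prod (ContinuousLinearMap.id ℝ (Fin n → ℝ))) y :=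
    (hasFDerivAt_const x y).prodMk (hasFDerivAt_id y)
  have h2 := hd.hasFDerivAt.comp y h1
  have h3 : fderiv ℝ (fun u => Q (x, u)) y = _ := h2.fderiv
  rw [pd, h3]
  rfl

theorem hor_deriv (hU : IsOpen U) {Q : (Fin n → ℝ) × (Fin n → ℝ) → ℝ}
    (hQ : ContDiffOn ℝ ((⊤ : ℕ∞) : WithTop ℕ∞) Q (U ×ˢ Om n)) {x y : Fin n → ℝ} (hx : x ∈ U)
    (hy : y ∈ Om n) : HasFDerivAt (fun z => Q (z, y))
      ((fderiv ℝ Q (x, y)).comp ((ContinuousLinearMap.id ℝ (Fin n → ℝ)).prod 0)) x := by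
  have hd : DifferentiableAt ℝ Q (x, y) :=
    (hQ.differentiableOn (by norm_cast)).differentiableAt ((isOpen_UO hU).mem_nhds ⟨hx, hy⟩)
  have h1 : HasFDerivAt (fun z : Fin n → ℝ => (z, y))
      ((ContinuousLinearMap.id ℝ (Fin n → ℝ)).prod (0 : (Fin n → ℝ) →L[ℝ] (Fin n → ℝ))) x :=
    (hasFDerivAt_id x).prodMk (hasFDerivAt_const y x)
  exact hd.hasFDerivAt.comp x h1

theorem slice_smooth {Q : (Fin n → ℝ) × (Fin n → ℝ) → ℝ}
    (hQ : ContDiffOn ℝ ((⊤ : ℕ∞) : WithTop ℕ∞) Q (U ×ˢ Om n)) {x : Fin n → ℝ} (hx : x ∈ U) :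
    ContDiffOn ℝ ((⊤ : ℕ∞) : WithTop ℕ∞) (fun y => Q (x, y)) (Om n) :=
  hQ.comp (contDiff_const.prodMk contDiff_id).contDiffOn fun y hy => ⟨hx, hy⟩

theorem hor_smooth (hU : IsOpen U) {Q : (Fin n → ℝ) × (Fin n → ℝ) → ℝ}
    (hQ : ContDiffOn ℝ ((⊤ : ℕ∞) : WithTop ℕ∞) Q (U ×ˢ Om n)) {x : Fin n → ℝ} (hx : x ∈ U)
    (k : Fin n) :
    ContDiffOn ℝ ((⊤ : ℕ∞) : WithTop ℕ∞) (fun y => pd k (fun z => Q (z, y)) x) (Om n) := by
  have h1 : ContDiffOn ℝ ((⊤ : ℕ∞) : WithTop ℕ∞)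
      (fun p => fderiv ℝ Q p ((eb k, 0) : (Fin n → ℝ) × (Fin n → ℝ))) (U ×ˢ Om n) :=
    (hQ.fderiv_of_isOpen (isOpen_UO hU) (by norm_cast)).clm_apply contDiffOn_const
  refine (slice_smooth h1 hx).congr fun y hy => ?_
  rw [pd, (hor_deriv hU hQ hx hy).fderiv]
  rfl

/-- energy of the slice -/
noncomputable def En (F : (Fin n → ℝ) → (Fin n → ℝ) → ℝ) (x : Fin n → ℝ) : (Fin n → ℝ) → ℝ :=
  fun y => (1 / 2 : ℝ) * F x y ^ 2

theorem En_smooth (hF : IsFinsler U F) {x : Fin n → ℝ} (hx : x ∈ U) :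
    ContDiffOn ℝ ((⊤ : ℕ∞) : WithTop ℕ∞) (En F x) (Om n) :=
  contDiffOn_const.mul (slice_smooth (Phi_smooth hF) hx)

theorem sq_smooth (hF : IsFinsler U F) {x : Fin n → ℝ} (hx : x ∈ U) :
    ContDiffOn ℝ ((⊤ : ℕ∞) : WithTop ℕ∞) (fun u => F x u ^ 2) (Om n) :=
  slice_smooth (Phi_smooth hF) hx

theorem pd_const_mul (c : ℝ) {f : (Fin n → ℝ) → ℝ}
    (hf : ContDiffOn ℝ ((⊤ : ℕ∞) : WithTop ℕ∞) f (Om n)) (i : Fin n) :
    ∀ y ∈ Om n, pd i (fun u => c * f u) y = c * pd i f y := by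
  intro y hy
  rw [pd, fderiv_const_mul (diffAt hf hy)]
  rfl

theorem pd_En (hF : IsFinsler U F) {x : Fin n → ℝ} (hx : x ∈ U) (i : Fin n) :
    ∀ y ∈ Om n, pd i (En F x) y = (1 / 2 : ℝ) * pd i (fun u => F x u ^ 2) y :=
  pd_const_mul _ (sq_smooth hF hx) i

theorem pd2_En (hF : IsFinsler U F) {x : Fin n → ℝ} (hx : x ∈ U) (i j : Fin n) :
    ∀ y ∈ Om n, pd i (pd j (En F x)) y = (1 / 2 : ℝ) * pd i (pd j (fun u => F x u ^ 2)) y := by
  intro y hy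
  rw [pd_congr i (pd_En hF hx j) hy, pd_const_mul _ (smooth_pd j (sq_smooth hF hx)) i y hy]

theorem pd3_En (hF : IsFinsler U F) {x : Fin n → ℝ} (hx : x ∈ U) (i j k : Fin n) :
    ∀ y ∈ Om n, pd i (pd j (pd k (En F x))) y =
      (1 / 2 : ℝ) * pd i (pd j (pd k (fun u => F x u ^ 2))) y := by
  intro y hy
  rw [pd_congr i (pd2_En hF hx j k) hy,
    pd_const_mul _ (smooth_pd j (smooth_pd k (sq_smooth hF hx))) i y hy]

theorem mink (hF : IsFinsler U F) {x : Fin n → ℝ} (hx : x ∈ U) : Mink (En F x) where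
  smooth := En_smooth hF hx
  pos := fun y hy => by
    have := hF.pos x hx y hy
    unfold En; positivity
  hom := fun y hy t ht => by
    unfold En
    rw [hF.hom x hx y t ht]; ring
  conv := fun y hy v hv => by
    have := hF.convex x hx y hy v hv
    refine lt_of_lt_of_eq this ?_
    refine Finset.sum_congr rfl fun i _ => Finset.sum_congr rfl fun j _ => ?_
    rw [pd2_En hF hx i j y hy]
    rfl

/-- right-hand side of the spray equation -/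
noncomputable def RH (F : (Fin n → ℝ) → (Fin n → ℝ) → ℝ) (x : Fin n → ℝ) (l : Fin n) :
    (Fin n → ℝ) → ℝ := fun y =>
  (1 / 4 : ℝ) * ((∑ k : Fin n, pd k (fun z => pd l (fun u => F z u ^ 2) y) x * y k)
          - pd l (fun z => F z y ^ 2) x)

theorem hor_vert (hU : IsOpen U) (hF : IsFinsler U F) {x y : Fin n → ℝ} (hx : x ∈ U)
    (hy : y ∈ Om n) (l : Fin n) :
    (fun z => pd l (fun u => F z u ^ 2) y) =ᶠ[𝓝 x] fun z => Psi F l (z, y) := by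
  filter_upwards [hU.mem_nhds hx] with z hz
  exact vert_deriv hU (Phi_smooth hF) hz hy l

theorem RH_smooth (hU : IsOpen U) (hF : IsFinsler U F) {x : Fin n → ℝ} (hx : x ∈ U)
    (l : Fin n) : ContDiffOn ℝ ((⊤ : ℕ∞) : WithTop ℕ∞) (RH F x l) (Om n) := by
  refine contDiffOn_const.mul (ContDiffOn.sub ?_ ?_)
  · refine ContDiffOn.sum fun k _ => ContDiffOn.mul ?_ (by fun_prop)
    refine (hor_smooth hU (Psi_smooth hU hF l) hx k).congr fun y hy => ?_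
    rw [pd, pd, (hor_vert hU hF hx hy l).fderiv_eq]
  · exact hor_smooth hU (Phi_smooth hF) hx l

end slice

end H69Conf
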