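import Pool.Agent.H69R3.Conf.Final

set_option autoImplicit false

open Finset Matrix Filter Topology

namespace H69Conf

open Pool.Agent.H69R3.Conf (IsFinsler IsSpray IsLandsberg IsBerwald conf)

variable {n : ℕ} {U : Set (Fin n → ℝ)} {F : (Fin n → ℝ) → (Fin n → ℝ) → ℝ}
  {σ : (Fin n → ℝ) → ℝ} {G G' : (Fin n → ℝ) → (Fin n → ℝ) → (Fin n → ℝ)} {x : Fin n → ℝ}

theorem D3_quad (b : Fin n → ℝ) (i j k l : Fin n) :
    D j (D k (D l (BB b * yc i))) = 0 := by
  have h1 : ∀ m, D m (if i = m then (1 : SR n) else 0) = 0 := by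
    intro m; split_ifs <;> simp
  have h2 : ∀ m p, D m (if i = p then (1 : SR n) else 0) = 0 := by
    intro m p; split_ifs <;> simp
  rw [Derivation.leibniz, D_BB, D_yc, smul_eq_mul, smul_eq_mul, map_add, Derivation.leibniz,
    Derivation.leibniz, Derivation.map_algebraMap, D_BB, D_yc, h2]
  simp only [smul_eq_mul, mul_zero, zero_add, add_zero, map_add, Derivation.leibniz,
    Derivation.map_algebraMap, h2]

/-- the ring version of the spray -/
noncomputable def GS (hU : IsOpen U) (hF : IsFinsler U F) (hx : x ∈ U) (i : Fin n) : SR n :=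
  ∑ l, hM (mink hF hx) i l * mk (RH F x l) (RH_smooth hU hF hx l)

/-- the ring version of `E g⁻¹ b` -/
noncomputable def WS (hF : IsFinsler U F) (hx : x ∈ U) (b : Fin n → ℝ) (i : Fin n) : SR n :=
  ∑ l, hM (mink hF hx) i l * (EE (mink hF hx) * bb b l)

/-- the ring version of the conformal spray -/
noncomputable def GS' (hU : IsOpen U) (hF : IsFinsler U F) (hx : x ∈ U) (b : Fin n → ℝ)
    (i : Fin n) : SR n := GS hU hF hx i + BB b * yc i - WS hF hx b i

theorem solve {E : (Fin n → ℝ) → ℝ} {H : Mink E} {y : Om n} {u r : Fin n → ℝ}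
    (h : ∀ l, ∑ i, pd l (pd i E) y.1 * u i = r l) (i : Fin n) :
    u i = ∑ l, hR H y i l * r l := by
  have h1 : gR H y *ᵥ u = r := by
    ext l
    rw [← h l, mulVec, dotProduct]
    exact Finset.sum_congr rfl fun i _ => by rw [gR_apply]
  have h2 : u = hR H y *ᵥ r := by rw [← h1, mulVec_mulVec, hgR, one_mulVec]
  conv_lhs => rw [h2]
  rfl

theorem spray_eq (hU : IsOpen U) (hF : IsFinsler U F) (hG : IsSpray U F G) (hx : x ∈ U)
    (y : Fin n → ℝ) (hy : y ∈ Om n) (i : Fin n) :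
    G x y i = (GS hU hF hx i).1 ⟨y, hy⟩ := by
  have h1 : ∀ l, ∑ i, pd l (pd i (En F x)) y * G x y i = RH F x l y := by
    intro l
    have := hG x hx y hy l
    rw [RH]
    refine Eq.trans ?_ this
    refine Finset.sum_congr rfl fun i _ => ?_
    rw [pd2_En hF hx l i y hy]
    rfl
  rw [solve (H := mink hF hx) (y := ⟨y, hy⟩) h1 i, ← ev_apply, GS]
  simp only [map_sum, map_mul]
  rfl

theorem pd_exp_mul {q : (Fin n → ℝ) → ℝ} (hσ : DifferentiableAt ℝ σ x)
    (hq : DifferentiableAt ℝ q x) (k : Fin n) :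
    pd k (fun z => Real.exp (σ z) ^ 2 * q z) x =
      Real.exp (σ x) ^ 2 * (2 * pd k σ x * q x + pd k q x) := by
  have h1 : HasFDerivAt (fun z => Real.exp (σ z)) (Real.exp (σ x) • fderiv ℝ σ x) x :=
    hσ.hasFDerivAt.exp
  have h2 := (h1.pow 2).mul hq.hasFDerivAt
  have h3 : fderiv ℝ (fun z => Real.exp (σ z) ^ 2 * q z) x = _ := h2.fderiv
  rw [pd, h3]
  simp only [_root_.add_apply, _root_.smul_apply, smul_eq_mul, pd]
  norm_num
  ring

theorem RH_conf (hU : IsOpen U) (hF : IsFinsler U F)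
    (hσ : ContDiffOn ℝ ((⊤ : ℕ∞) : WithTop ℕ∞) σ U) (hx : x ∈ U)
    (y : Fin n → ℝ) (hy : y ∈ Om n) (l : Fin n) :
    RH (conf σ F) x l y = Real.exp (σ x) ^ 2 *
      (RH F x l y + (∑ k, pd k σ x * y k) * pd l (En F x) y - pd l σ x * En F x y) := by
  have hσd : DifferentiableAt ℝ σ x :=
    (hσ.differentiableOn (by norm_cast)).differentiableAt (hU.mem_nhds hx)
  have ha : (fun z => pd l (fun u => conf σ F z u ^ 2) y) =ᶠ[𝓝 x]
      fun z => Real.exp (σ z) ^ 2 * Psi F l (z, y) := by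
    filter_upwards [hU.mem_nhds hx] with z hz
    have h1 : (fun u => conf σ F z u ^ 2) = fun u => Real.exp (σ z) ^ 2 * (F z u ^ 2) := by
      funext u; simp only [conf]; ring
    rw [h1, pd_const_mul _ (sq_smooth hF hz) l y hy]
    congr 1
    exact vert_deriv hU (Phi_smooth hF) hz hy l
  have hΨd : DifferentiableAt ℝ (fun z => Psi F l (z, y)) x :=
    (hor_deriv hU (Psi_smooth hU hF l) hx hy).differentiableAt
  have hΦd : DifferentiableAt ℝ (fun z => F z y ^ 2) x :=
    (hor_deriv hU (Phi_smooth hF) hx hy).differentiableAt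
  have hb : ∀ k, pd k (fun z => pd l (fun u => conf σ F z u ^ 2) y) x =
      Real.exp (σ x) ^ 2 * (2 * pd k σ x * Psi F l (x, y) +
        pd k (fun z => pd l (fun u => F z u ^ 2) y) x) := by
    intro k
    have h1 : pd k (fun z => pd l (fun u => conf σ F z u ^ 2) y) x =
        pd k (fun z => Real.exp (σ z) ^ 2 * Psi F l (z, y)) x := by
      rw [pd, pd, ha.fderiv_eq]
    have h2 : pd k (fun z => pd l (fun u => F z u ^ 2) y) x =
        pd k (fun z => Psi F l (z, y)) x := by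
      rw [pd, pd, (hor_vert hU hF hx hy l).fderiv_eq]
    rw [h1, h2, pd_exp_mul hσd hΨd]
  have hc : pd l (fun z => conf σ F z y ^ 2) x =
      Real.exp (σ x) ^ 2 * (2 * pd l σ x * F x y ^ 2 + pd l (fun z => F z y ^ 2) x) := by
    have h1 : (fun z => conf σ F z y ^ 2) = fun z => Real.exp (σ z) ^ 2 * (F z y ^ 2) := by
      funext z; simp only [conf]; ring
    rw [h1, pd_exp_mul hσd hΦd]
  have hΨ : Psi F l (x, y) = 2 * pd l (En F x) y := by
    rw [pd_En hF hx l y hy]
    have : pd l (fun u => F x u ^ 2) y = Psi F l (x, y) := vert_deriv hU (Phi_smooth hF) hx hy l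
    rw [this]; ring
  simp only [RH]
  have hs : ∑ k, pd k (fun z => pd l (fun u => conf σ F z u ^ 2) y) x * y k =
      Real.exp (σ x) ^ 2 * (4 * (∑ k, pd k σ x * y k) * pd l (En F x) y +
        ∑ k, pd k (fun z => pd l (fun u => F z u ^ 2) y) x * y k) := by
    rw [Finset.mul_sum, Finset.sum_mul, ← Finset.sum_add_distrib, Finset.mul_sum]
    refine Finset.sum_congr rfl fun k _ => ?_
    rw [hb k, hΨ]; ring
  have hEn : En F x y = (1 / 2 : ℝ) * F x y ^ 2 := rfl
  rw [show (∑ k, pd k (fun z => pd l (fun u => conf σ F z u ^ 2) y) x * y k) = _ from hs, hc,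
    hEn]
  ring

theorem spray_conf (hU : IsOpen U) (hF : IsFinsler U F)
    (hσ : ContDiffOn ℝ ((⊤ : ℕ∞) : WithTop ℕ∞) σ U) (hG' : IsSpray U (conf σ F) G')
    (hx : x ∈ U) (y : Fin n → ℝ) (hy : y ∈ Om n) (i : Fin n) :
    G' x y i = (GS' hU hF hx (fun l => pd l σ x) i).1 ⟨y, hy⟩ := by
  set b : Fin n → ℝ := fun l => pd l σ x with hb
  have hexp : Real.exp (σ x) ^ 2 ≠ 0 := by positivity
  have hsq : (fun u => conf σ F x u ^ 2) = fun u => Real.exp (σ x) ^ 2 * (F x u ^ 2) := by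
    funext u; simp only [conf]; ring
  have hgg : ∀ l i, (1 / 2 : ℝ) * pd l (pd i fun u => conf σ F x u ^ 2) y =
      Real.exp (σ x) ^ 2 * pd l (pd i (En F x)) y := by
    intro l i
    have h1 : ∀ z ∈ Om n, pd i (fun u => conf σ F x u ^ 2) z =
        Real.exp (σ x) ^ 2 * pd i (fun u => F x u ^ 2) z := by
      intro z hz
      rw [hsq, pd_const_mul _ (sq_smooth hF hx) i z hz]
    rw [pd_congr l h1 hy, pd_const_mul _ (smooth_pd i (sq_smooth hF hx)) l y hy,
      pd2_En hF hx l i y hy]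
    ring
  have h1 : ∀ l, ∑ i, pd l (pd i (En F x)) y * G' x y i =
      RH F x l y + (∑ k, b k * y k) * pd l (En F x) y - b l * En F x y := by
    intro l
    have h2 := hG' x hx y hy l
    have h3 : ∑ i, (1 / 2 : ℝ) * pd l (pd i fun u => conf σ F x u ^ 2) y * G' x y i =
        RH (conf σ F) x l y := h2
    rw [RH_conf hU hF hσ hx y hy l] at h3
    apply mul_left_cancel₀ hexp
    rw [← h3, Finset.mul_sum]
    refine Finset.sum_congr rfl fun i _ => ?_
    rw [hgg l i]; ring
  have hy3 : ∀ l, ∑ i, pd l (pd i (En F x)) y * y i = pd l (En F x) y := by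
    intro l
    rw [← (mink hF hx).euler2 hy l]
    refine Finset.sum_congr rfl fun i _ => ?_
    rw [pd_comm l i (En_smooth hF hx) hy, mul_comm]
  have h4 : ∀ l, ∑ i, pd l (pd i (En F x)) y * (G' x y i - (∑ k, b k * y k) * y i) =
      RH F x l y - b l * En F x y := by
    intro l
    have : ∀ i, pd l (pd i (En F x)) y * (G' x y i - (∑ k, b k * y k) * y i) =
      pd l (pd i (En F x)) y * G' x y i - (∑ k, b k * y k) * (pd l (pd i (En F x)) y * y i) := by
      intro i; ring
    rw [Finset.sum_congr rfl fun i _ => this i, Finset.sum_sub_distrib, ← Finset.mul_sum, h1, hy3]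
    ring
  have h5 := solve (H := mink hF hx) (y := ⟨y, hy⟩) h4 i
  have h6 : (GS' hU hF hx b i).1 ⟨y, hy⟩ =
      (∑ l, hR (mink hF hx) ⟨y, hy⟩ i l * RH F x l y) + (∑ k, b k * y k) * y i
        - ∑ l, hR (mink hF hx) ⟨y, hy⟩ i l * (En F x y * b l) := by
    rw [← ev_apply, GS', GS, WS, BB]
    simp only [map_sum, map_mul, map_add, map_sub]
    rfl
  rw [h6]
  have h7 : ∑ l, hR (mink hF hx) ⟨y, hy⟩ i l * (RH F x l y - b l * En F x y) =
      (∑ l, hR (mink hF hx) ⟨y, hy⟩ i l * RH F x l y)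
        - ∑ l, hR (mink hF hx) ⟨y, hy⟩ i l * (En F x y * b l) := by
    rw [← Finset.sum_sub_distrib]
    exact Finset.sum_congr rfl fun l _ => by ring
  rw [h7] at h5
  linarith

theorem landsberg_ring (hU : IsOpen U) (hF : IsFinsler U F) (hG : IsSpray U F G)
    (hL : IsLandsberg U F G) (hx : x ∈ U) (j k l : Fin n) :
    ∑ i, D i (EE (mink hF hx)) * D j (D k (D l (GS hU hF hx i))) = 0 := by
  apply ext_SR
  rintro ⟨y, hy⟩
  rw [← ev_apply]
  simp only [map_sum, map_mul]
  have h1 := hL x hx y hy j k l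
  refine Eq.trans ?_ h1
  refine Finset.sum_congr rfl fun i _ => ?_
  rw [ev_apply, ev_apply, dE_apply, pd_En hF hx i y hy]
  have h2 := pd3_of_eq (F := fun u => G x u i) (f := GS hU hF hx i)
    (fun y hy => spray_eq hU hF hG hx y hy i) j k l hy
  rw [← h2]
  rfl

theorem landsberg_ring' (hU : IsOpen U) (hF : IsFinsler U F)
    (hσ : ContDiffOn ℝ ((⊤ : ℕ∞) : WithTop ℕ∞) σ U) (hG' : IsSpray U (conf σ F) G')
    (hL' : IsLandsberg U (conf σ F) G') (hx : x ∈ U) (j k l : Fin n) :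
    ∑ i, D i (EE (mink hF hx)) * D j (D k (D l (GS' hU hF hx (fun l => pd l σ x) i))) = 0 := by
  apply ext_SR
  rintro ⟨y, hy⟩
  rw [← ev_apply]
  simp only [map_sum, map_mul]
  have h1 := hL' x hx y hy j k l
  have hexp : Real.exp (σ x) ^ 2 ≠ 0 := by positivity
  apply mul_left_cancel₀ hexp
  have h0 : Real.exp (σ x) ^ 2 * (0 : SR n).1 ⟨y, hy⟩ = 0 := by
    show Real.exp (σ x) ^ 2 * 0 = 0
    rw [mul_zero]
  rw [h0]
  refine Eq.trans ?_ h1
  rw [Finset.mul_sum]
  refine Finset.sum_congr rfl fun i _ => ?_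
  rw [ev_apply, ev_apply, dE_apply, pd_En hF hx i y hy]
  have h2 := pd3_of_eq (F := fun u => G' x u i) (f := GS' hU hF hx (fun l => pd l σ x) i)
    (fun y hy => spray_conf hU hF hσ hG' hx y hy i) j k l hy
  rw [← h2]
  have hsq : (fun u => conf σ F x u ^ 2) = fun u => Real.exp (σ x) ^ 2 * (F x u ^ 2) := by
    funext u; simp only [conf]; ring
  have h3 : pd i (fun u => conf σ F x u ^ 2) y =
      Real.exp (σ x) ^ 2 * pd i (fun u => F x u ^ 2) y := by
    rw [hsq, pd_const_mul _ (sq_smooth hF hx) i y hy]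
  have h4 : Pool.Agent.H69R3.Conf.pd i (fun u => conf σ F x u ^ 2) y =
      Real.exp (σ x) ^ 2 * pd i (fun u => F x u ^ 2) y := h3
  rw [h4]
  have h5 : Pool.Agent.H69R3.Conf.pd j (Pool.Agent.H69R3.Conf.pd k
    (Pool.Agent.H69R3.Conf.pd l fun u => G' x u i)) y = pd j (pd k (pd l fun u => G' x u i)) y :=
    rfl
  rw [h5]
  ring

theorem wdata (hU : IsOpen U) (hF : IsFinsler U F)
    (hσ : ContDiffOn ℝ ((⊤ : ℕ∞) : WithTop ℕ∞) σ U) (hG : IsSpray U F G)
    (hG' : IsSpray U (conf σ F) G') (hL : IsLandsberg U F G)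
    (hL' : IsLandsberg U (conf σ F) G') (hx : x ∈ U) :
    WData (mink hF hx) (fun l => pd l σ x)
      (fun i => ex (WS hF hx (fun l => pd l σ x) i).1) where
  smooth := fun i => smoothSR _
  hg := by
    intro y hy l
    set b : Fin n → ℝ := fun l => pd l σ x with hb
    have h1 : ∀ i, ex (WS hF hx b i).1 y =
        (hR (mink hF hx) ⟨y, hy⟩ *ᵥ fun l => En F x y * b l) i := by
      intro i
      rw [ex_of_mem _ hy, ← ev_apply, WS]
      simp only [map_sum, map_mul]
      rfl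
    have h2 : ∑ i, pd l (pd i (En F x)) y * ex (WS hF hx b i).1 y =
        (gR (mink hF hx) ⟨y, hy⟩ *ᵥ (hR (mink hF hx) ⟨y, hy⟩ *ᵥ fun l => En F x y * b l)) l := by
      rw [mulVec, dotProduct]
      refine Finset.sum_congr rfl fun i _ => ?_
      rw [gR_apply, h1 i]
    rw [h2, mulVec_mulVec, ghR, one_mulVec]
  P := by
    intro y hy j k l
    set b : Fin n → ℝ := fun l => pd l σ x with hb
    have hr1 := landsberg_ring hU hF hG hL hx j k l
    have hr2 := landsberg_ring' hU hF hσ hG' hL' hx j k l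
    have hr3 : ∑ i, D i (EE (mink hF hx)) * D j (D k (D l (WS hF hx b i))) = 0 := by
      have h1 : ∀ i, D i (EE (mink hF hx)) * D j (D k (D l (WS hF hx b i))) =
          D i (EE (mink hF hx)) * D j (D k (D l (GS hU hF hx i)))
          - D i (EE (mink hF hx)) * D j (D k (D l (GS' hU hF hx b i))) := by
        intro i
        simp only [GS', map_sub, map_add, D3_quad, add_zero]
        ring
      rw [Finset.sum_congr rfl fun i _ => h1 i, Finset.sum_sub_distrib, hr1, hr2, sub_zero]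
    have h2 := congrArg (fun z => ev ⟨y, hy⟩ z) hr3
    simp only [map_sum, map_mul, map_zero] at h2
    refine Eq.trans ?_ h2
    refine Finset.sum_congr rfl fun i _ => ?_
    rw [ev_apply, ev_apply, dE_apply]
    congr 1
    exact pd3_of_eq (fun y hy => ex_of_mem _ hy) j k l hy

end H69Conf
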