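import Pool.Agent.H69R3.Conf.Final2

set_option autoImplicit false

open Finset Matrix Filter Topology

namespace H69Conf

open Pool.Agent.H69R3.Conf (IsFinsler IsSpray IsLandsberg IsBerwald conf)

variable {n : ℕ} {U : Set (Fin n → ℝ)} {F : (Fin n → ℝ) → (Fin n → ℝ) → ℝ}
  {σ : (Fin n → ℝ) → ℝ} {G G' : (Fin n → ℝ) → (Fin n → ℝ) → (Fin n → ℝ)} {x : Fin n → ℝ}

theorem const_on_Om (hn : 2 ≤ n) {f : (Fin n → ℝ) → ℝ}
    (hf : ContDiffOn ℝ ((⊤ : ℕ∞) : WithTop ℕ∞) f (Om n))
    (h0 : ∀ y ∈ Om n, ∀ i, pd i f y = 0) : ∀ p ∈ Om n, ∀ q ∈ Om n, f p = f q := by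
  have hpre : IsPreconnected (Om n) := by
    have : Om n = {(0 : Fin n → ℝ)}ᶜ := rfl
    rw [this]
    refine (isConnected_compl_singleton_of_one_lt_rank ?_ 0).isPreconnected
    rw [rank_fin_fun]
    exact_mod_cast hn
  have hfd : ∀ y ∈ Om n, fderiv ℝ f y = 0 := by
    intro y hy
    ext1 v
    rw [fderiv_eq_pd]
    simp [h0 y hy]
  intro p hp q hq
  exact (isOpen_Om n).is_const_of_fderiv_eq_zero hpre (hf.differentiableOn (by norm_cast)) hfd hp hq

theorem quadratic_of_pd3 (hn : 2 ≤ n) (hF : IsFinsler U F) (hx : x ∈ U)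
    (h3 : ∀ y ∈ Om n, ∀ i j k, pd i (pd j (pd k (En F x))) y = 0) :
    ∃ Q : Matrix (Fin n) (Fin n) ℝ, ∀ y : Fin n → ℝ,
      F x y ^ 2 = ∑ i, ∑ j, Q i j * y i * y j := by
  have hy0 : (eb (⟨0, by omega⟩ : Fin n) : Fin n → ℝ) ∈ Om n := by
    intro h
    have := congrFun h ⟨0, by omega⟩
    simp [eb] at this
  set y0 : Fin n → ℝ := eb (⟨0, by omega⟩ : Fin n) with hy0'
  refine ⟨Matrix.of fun i j => pd i (pd j (En F x)) y0, fun y => ?_⟩
  by_cases hy : y ∈ Om n
  · have hconst : ∀ i j, pd i (pd j (En F x)) y = pd i (pd j (En F x)) y0 := by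
      intro i j
      exact const_on_Om hn (smooth_pd i (smooth_pd j (En_smooth hF hx)))
        (fun z hz k => h3 z hz k i j) y hy y0 hy0
    have e1 := (mink hF hx).euler hy
    have e2 : 2 * En F x y = F x y ^ 2 := by unfold En; ring
    rw [← e2, ← e1, Finset.sum_comm]
    refine Finset.sum_congr rfl fun l _ => ?_
    rw [← (mink hF hx).euler2 hy l, Finset.mul_sum]
    refine Finset.sum_congr rfl fun i _ => ?_
    rw [hconst i l]
    simp only [of_apply]
    ring
  · have hy' : y = 0 := by by_contra h; exact hy h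
    have h0 : F x 0 = 0 := by
      have := hF.hom x hx 0 2 (by norm_num)
      rw [smul_zero] at this
      linarith
    rw [hy', h0]
    simp

theorem rigidity (hn : 2 ≤ n) (hU : IsOpen U) (hF : IsFinsler U F)
    (hσ : ContDiffOn ℝ ((⊤ : ℕ∞) : WithTop ℕ∞) σ U) (hG : IsSpray U F G)
    (hG' : IsSpray U (conf σ F) G') (hL : IsLandsberg U F G)
    (hL' : IsLandsberg U (conf σ F) G') (hx : x ∈ U) (hd : fderiv ℝ σ x ≠ 0) :
    ∃ Q : Matrix (Fin n) (Fin n) ℝ, ∀ y : Fin n → ℝ,
      F x y ^ 2 = ∑ i, ∑ j, Q i j * y i * y j := by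
  have hb : (fun l => pd l σ x) ≠ 0 := by
    intro h0
    apply hd
    ext1 v
    rw [fderiv_eq_pd]
    have : ∀ l, pd l σ x = 0 := fun l => congrFun h0 l
    simp [this]
  exact quadratic_of_pd3 hn hF hx
    (euclid_of_W hn hb (wdata hU hF hσ hG hG' hL hL' hx))

theorem D3_mul_const {f g : SR n} (hf : ∀ m, D m f = 0) (j k l : Fin n) :
    D j (D k (D l (f * g))) = f * D j (D k (D l g)) := by
  have h1 : ∀ m (u : SR n), D m (f * u) = f * D m u := by
    intro m u
    rw [Derivation.leibniz, hf m, smul_eq_mul, smul_eq_mul, mul_zero, add_zero]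
  rw [h1, h1, h1]

theorem D3_WS (hF : IsFinsler U F) (hx : x ∈ U) (b : Fin n → ℝ)
    (hC : ∀ m, CM (mink hF hx) m = 0) (i j k l : Fin n) :
    D j (D k (D l (WS hF hx b i))) = 0 := by
  have hdh : ∀ a, dm (D a) (hM (mink hF hx)) = 0 := by
    intro a
    have h1 : dm (D a) (hM (mink hF hx)) * gM (mink hF hx)
        + hM (mink hF hx) * dm (D a) (gM (mink hF hx)) = 0 := by
      rw [← dm_mul, hg, dm_one]
    rw [dm_gM, hC a, Matrix.mul_zero, add_zero] at h1
    calc dm (D a) (hM (mink hF hx)) = (dm (D a) (hM (mink hF hx)) * gM (mink hF hx))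
          * hM (mink hF hx) := by rw [Matrix.mul_assoc, gh, Matrix.mul_one]
      _ = 0 := by rw [h1, Matrix.zero_mul]
  have hdh' : ∀ a p q, D a (hM (mink hF hx) p q) = 0 := fun a p q =>
    congrFun (congrFun (hdh a) p) q
  have hE3 : D j (D k (D l (EE (mink hF hx)))) = 0 := congrFun (congrFun (hC j) k) l
  rw [WS]
  simp only [map_sum]
  refine Finset.sum_eq_zero fun p _ => ?_
  rw [D3_mul_const (fun m => hdh' m i p), mul_comm (EE (mink hF hx)),
    D3_mul_const (fun m => by rw [bb, Derivation.map_algebraMap]), hE3, mul_zero, mul_zero]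

theorem CM_zero_of_one (hn : n < 2) {E : (Fin n → ℝ) → ℝ} (H : Mink E) (m : Fin n) :
    CM H m = 0 := by
  have h1 : n = 1 := by have := m.2; omega
  subst h1
  refine Matrix.ext fun k l => ?_
  apply ext_SR
  intro y
  have h2 := congrFun (Cy H m) k
  rw [mulVec, dotProduct, Fin.sum_univ_one] at h2
  have h3 : CM H m k l = CM H m k 0 := by rw [Subsingleton.elim l 0]
  have h4 := congrArg (fun z => ev y z) h2
  simp only [map_mul, Pi.zero_apply, map_zero] at h4
  have hy0 : ev y (yc (0 : Fin 1)) ≠ 0 := by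
    intro h0
    apply y.2
    ext i
    rw [Subsingleton.elim i 0]
    exact h0
  rw [h3]
  exact (mul_eq_zero.1 h4).resolve_right hy0

theorem berwald (hU : IsOpen U) (hF : IsFinsler U F)
    (hσ : ContDiffOn ℝ ((⊤ : ℕ∞) : WithTop ℕ∞) σ U) (hG : IsSpray U F G)
    (hG' : IsSpray U (conf σ F) G') (hB : IsBerwald U G)
    (hL' : IsLandsberg U (conf σ F) G') : IsBerwald U G' := by
  have hL : IsLandsberg U F G := by
    intro x hx y hy j k l
    refine Finset.sum_eq_zero fun i _ => ?_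
    rw [hB x hx y hy i j k l, mul_zero]
  intro x hx y hy i j k l
  have h1 : pd j (pd k (pd l fun u => G' x u i)) y =
      (D j (D k (D l (GS' hU hF hx (fun l => pd l σ x) i)))).1 ⟨y, hy⟩ :=
    pd3_of_eq (fun y hy => spray_conf hU hF hσ hG' hx y hy i) j k l hy
  have h2 : pd j (pd k (pd l fun u => G x u i)) y =
      (D j (D k (D l (GS hU hF hx i)))).1 ⟨y, hy⟩ :=
    pd3_of_eq (fun y hy => spray_eq hU hF hG hx y hy i) j k l hy
  have h3 : (D j (D k (D l (GS hU hF hx i)))).1 ⟨y, hy⟩ = 0 := by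
    rw [← h2]; exact hB x hx y hy i j k l
  have h4 : D j (D k (D l (WS hF hx (fun l => pd l σ x) i))) = 0 := by
    by_cases hb : (fun l => pd l σ x) = 0
    · have : WS hF hx (fun l => pd l σ x) i = 0 := by
        rw [WS]
        refine Finset.sum_eq_zero fun p _ => ?_
        have : bb (fun l => pd l σ x) p = 0 := by
          rw [bb, congrFun hb p]; exact map_zero _
        rw [this, mul_zero, mul_zero]
      rw [this]; simp
    · apply D3_WS hF hx
      intro m
      by_cases hn : 2 ≤ n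
      · refine Matrix.ext fun p q => ?_
        apply ext_SR
        intro z
        have := CR_zero hn hb (wdata hU hF hσ hG hG' hL hL' hx) z m
        exact congrFun (congrFun this p) q
      · exact CM_zero_of_one (by omega) _ m
  have h5 : (D j (D k (D l (GS' hU hF hx (fun l => pd l σ x) i)))).1 ⟨y, hy⟩ = 0 := by
    rw [← ev_apply, GS']
    simp only [map_sub, map_add, D3_quad, h4, map_zero, add_zero, sub_zero]
    exact h3
  rw [← h1] at h5
  exact h5

end H69Conf
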