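import Pool.Agent.H69R3.Conf.SRing

set_option autoImplicit false

open Finset Matrix Set Filter Topology

namespace H69Conf

/-- data of a Minkowski energy `E` and a covector `b`, `W = E * g⁻¹ b` -/
structure Mink {n : ℕ} (E : (Fin n → ℝ) → ℝ) : Prop where
  smooth : ContDiffOn ℝ ((⊤ : ℕ∞) : WithTop ℕ∞) E (Om n)
  pos : ∀ y ∈ Om n, 0 < E y
  hom : ∀ y ∈ Om n, ∀ t : ℝ, 0 < t → E (t • y) = t ^ 2 * E y
  conv : ∀ y ∈ Om n, ∀ v : Fin n → ℝ, v ≠ 0 →
    0 < ∑ i, ∑ j, pd i (pd j E) y * v i * v j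

theorem fderiv_eq_pd {n : ℕ} (F : (Fin n → ℝ) → ℝ) (y v : Fin n → ℝ) :
    fderiv ℝ F y v = ∑ i, v i * pd i F y := by
  have h := LinearMap.pi_apply_eq_sum_univ (fderiv ℝ F y).toLinearMap v
  have h2 : ∀ i : Fin n, (fun j => if i = j then (1 : ℝ) else 0) = eb i := by
    intro i; ext j; simp [eb, Pi.single_apply, eq_comm]
  simp only [h2, smul_eq_mul] at h
  exact h

theorem smul_mem_Om {n : ℕ} {y : Fin n → ℝ} (hy : y ∈ Om n) {t : ℝ} (ht : t ≠ 0) :
    t • y ∈ Om n := smul_ne_zero ht hy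

/-- Euler relation -/
theorem Mink.euler {n : ℕ} {E : (Fin n → ℝ) → ℝ} (H : Mink E) {y : Fin n → ℝ} (hy : y ∈ Om n) :
    ∑ i, y i * pd i E y = 2 * E y := by
  rw [← fderiv_eq_pd]
  have h1 : HasDerivAt (fun t : ℝ => E (t • y)) (fderiv ℝ E y y) 1 := by
    have ha : HasFDerivAt E (fderiv ℝ E y) ((1 : ℝ) • y) := by
      rw [one_smul]; exact (diffAt H.smooth hy).hasFDerivAt
    have hb : HasDerivAt (fun t : ℝ => t • y) y 1 := by
      simpa using (hasDerivAt_id (1 : ℝ)).smul_const y
    exact ha.comp_hasDerivAt (1 : ℝ) hb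
  have h2 : HasDerivAt (fun t : ℝ => E (t • y)) (2 * E y) 1 := by
    have hc : HasDerivAt (fun t : ℝ => t ^ 2 * E y) (2 * E y) 1 := by
      simpa using ((hasDerivAt_pow 2 (1 : ℝ)).mul_const (E y))
    refine hc.congr_of_eventuallyEq ?_
    filter_upwards [lt_mem_nhds (show (0 : ℝ) < 1 by norm_num)] with t ht using H.hom y hy t ht
  exact h1.unique h2

/-- derivative scaling -/
theorem pd_scale {n : ℕ} {F : (Fin n → ℝ) → ℝ} (k : ℤ)
    (hs : ContDiffOn ℝ ((⊤ : ℕ∞) : WithTop ℕ∞) F (Om n))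
    (hF : ∀ y ∈ Om n, ∀ t : ℝ, 0 < t → F (t • y) = t ^ k * F y) (i : Fin n) :
    ∀ y ∈ Om n, ∀ t : ℝ, 0 < t → pd i F (t • y) = t ^ (k - 1) * pd i F y := by
  intro y hy t ht
  have h1 : HasFDerivAt (fun z => F (t • z)) ((fderiv ℝ F (t • y)).comp
      (t • ContinuousLinearMap.id ℝ (Fin n → ℝ))) y := by
    have ha : HasFDerivAt F (fderiv ℝ F (t • y)) (t • y) :=
      (diffAt hs (smul_mem_Om hy ht.ne')).hasFDerivAt
    have hb : HasFDerivAt (fun z : Fin n → ℝ => t • z)
      (t • ContinuousLinearMap.id ℝ (Fin n → ℝ)) y := (hasFDerivAt_id y).const_smul t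
    exact ha.comp y hb
  have h2 : HasFDerivAt (fun z => F (t • z)) (t ^ k • fderiv ℝ F y) y := by
    have hc : HasFDerivAt (fun z => t ^ k * F z) (t ^ k • fderiv ℝ F y) y :=
      (diffAt hs hy).hasFDerivAt.const_mul _
    refine hc.congr_of_eventuallyEq ?_
    filter_upwards [(isOpen_Om n).mem_nhds hy] with z hz using hF z hz t ht
  have h3 := congrArg (fun L => L (eb i)) (h1.unique h2)
  simp only [ContinuousLinearMap.comp_apply, _root_.smul_apply, ContinuousLinearMap.id_apply,
    map_smul, smul_eq_mul] at h3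
  have h4 : t * pd i F (t • y) = t ^ k * pd i F y := h3
  have h5 : t ^ k = t * t ^ (k - 1) := by
    rw [zpow_sub_one₀ ht.ne']; field_simp
  rw [h5, mul_assoc] at h4
  exact mul_left_cancel₀ ht.ne' h4

theorem Mink.grad_scale {n : ℕ} {E : (Fin n → ℝ) → ℝ} (H : Mink E) (i : Fin n) :
    ∀ y ∈ Om n, ∀ t : ℝ, 0 < t → pd i E (t • y) = t * pd i E y := by
  intro y hy t ht
  have := pd_scale (F := E) 2 H.smooth (fun y hy t ht => by
    rw [H.hom y hy t ht]; norm_cast) i y hy t ht
  simpa using this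

/-- differentiated Euler relation -/
theorem Mink.euler2 {n : ℕ} {E : (Fin n → ℝ) → ℝ} (H : Mink E) {y : Fin n → ℝ}
    (hy : y ∈ Om n) (l : Fin n) :
    ∑ i, y i * pd i (pd l E) y = pd l E y := by
  rw [← fderiv_eq_pd]
  have h1 : HasDerivAt (fun t : ℝ => pd l E (t • y)) (fderiv ℝ (pd l E) y y) 1 := by
    have ha : HasFDerivAt (pd l E) (fderiv ℝ (pd l E) y) ((1 : ℝ) • y) := by
      rw [one_smul]; exact (diffAt (smooth_pd l H.smooth) hy).hasFDerivAt
    have hb : HasDerivAt (fun t : ℝ => t • y) y 1 := by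
      simpa using (hasDerivAt_id (1 : ℝ)).smul_const y
    exact ha.comp_hasDerivAt (1 : ℝ) hb
  have h2 : HasDerivAt (fun t : ℝ => pd l E (t • y)) (pd l E y) 1 := by
    have hc : HasDerivAt (fun t : ℝ => t * pd l E y) (pd l E y) 1 := by
      simpa using ((hasDerivAt_id (1 : ℝ)).mul_const (pd l E y))
    refine hc.congr_of_eventuallyEq ?_
    filter_upwards [lt_mem_nhds (show (0 : ℝ) < 1 by norm_num)] with t ht using
      H.grad_scale l y hy t ht
  exact h1.unique h2

/-- the gradient map is injective -/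
theorem Mink.grad_inj {n : ℕ} {E : (Fin n → ℝ) → ℝ} (H : Mink E) {y z : Fin n → ℝ}
    (hy : y ∈ Om n) (hz : z ∈ Om n) (h : ∀ l, pd l E y = pd l E z) : y = z := by
  by_contra hne
  have hu : y - z ≠ 0 := sub_ne_zero.2 hne
  by_cases hseg : ∀ s ∈ Icc (0 : ℝ) 1, z + s • (y - z) ∈ Om n
  · -- strict monotonicity along the segment
    set u := y - z with hu'
    let φ : ℝ → ℝ := fun s => ∑ i, u i * pd i E (z + s • u)
    have hφ : ∀ s ∈ Icc (0 : ℝ) 1, HasDerivAt φ
        (∑ i, ∑ j, pd i (pd j E) (z + s • u) * u i * u j) s := by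
      intro s hs
      have hd : ∀ j, HasDerivAt (fun s : ℝ => pd j E (z + s • u))
          (∑ i, u i * pd i (pd j E) (z + s • u)) s := by
        intro j
        rw [← fderiv_eq_pd]
        have ha : HasFDerivAt (pd j E) (fderiv ℝ (pd j E) (z + s • u)) (z + s • u) :=
          (diffAt (smooth_pd j H.smooth) (hseg s hs)).hasFDerivAt
        have hb : HasDerivAt (fun s : ℝ => z + s • u) u s := by
          simpa using ((hasDerivAt_id s).smul_const u).const_add z
        exact ha.comp_hasDerivAt s hb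
      have hsum : HasDerivAt φ (∑ j, u j * ∑ i, u i * pd i (pd j E) (z + s • u)) s :=
        HasDerivAt.fun_sum fun j _ => (hd j).const_mul (u j)
      convert hsum using 1
      rw [Finset.sum_comm]
      refine Finset.sum_congr rfl fun j _ => ?_
      rw [Finset.mul_sum]
      refine Finset.sum_congr rfl fun i _ => ?_
      ring
    have hmono : StrictMonoOn φ (Icc 0 1) := by
      refine strictMonoOn_of_deriv_pos (convex_Icc 0 1) ?_ ?_
      · intro s hs
        exact (hφ s hs).continuousAt.continuousWithinAt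
      · intro s hs
        rw [interior_Icc] at hs
        have hs' := Ioo_subset_Icc_self hs
        rw [(hφ s hs').deriv]
        exact H.conv _ (hseg s hs') u hu
    have h01 := hmono (left_mem_Icc.2 zero_le_one) (right_mem_Icc.2 zero_le_one) zero_lt_one
    have e0 : φ 0 = ∑ i, u i * pd i E z := by simp [φ]
    have e1 : φ 1 = ∑ i, u i * pd i E y := by simp [φ, hu']
    rw [e0, e1] at h01
    simp only [h] at h01
    exact lt_irrefl _ h01
  · push Not at hseg
    obtain ⟨s, hs, hs0⟩ := hseg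
    have hs0' : z + s • (y - z) = 0 := by
      by_contra hc; exact hs0 hc
    have hs1 : s ≠ 1 := by
      rintro rfl
      apply hy
      have : z + (1 : ℝ) • (y - z) = y := by rw [one_smul]; abel
      rw [this] at hs0'; exact hs0'
    have hs2 : s ≠ 0 := by
      rintro rfl
      apply hz
      simpa using hs0'
    have hs3 : 0 < s := lt_of_le_of_ne hs.1 (Ne.symm hs2)
    have hs4 : s < 1 := lt_of_le_of_ne hs.2 hs1
    -- z = -κ y
    set κ := s / (1 - s) with hκ
    have hκ0 : 0 < κ := div_pos hs3 (by linarith)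
    have hz' : z = κ • (-y) := by
      have h1 : (1 - s) • z = -(s • y) := by
        have : (1 - s) • z + s • y = z + s • (y - z) := by
          rw [smul_sub, sub_smul, one_smul]; abel
        rw [hs0'] at this
        exact eq_neg_of_add_eq_zero_left this
      have h2 : (1 - s) ≠ 0 := by linarith
      have : z = (1 - s)⁻¹ • ((1 - s) • z) := by rw [smul_smul, inv_mul_cancel₀ h2, one_smul]
      rw [this, h1, hκ, smul_neg, smul_neg, smul_smul, div_eq_inv_mul]
    have hny : -y ∈ Om n := neg_ne_zero.2 hy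
    have e1 := H.euler hy
    have e2 := H.euler hny
    have e3 : ∑ i, (-y) i * pd i E (-y) = κ⁻¹ * ∑ i, (-y) i * pd i E z := by
      rw [Finset.mul_sum]
      refine Finset.sum_congr rfl fun i _ => ?_
      rw [hz', H.grad_scale i (-y) hny κ hκ0]
      field_simp
    have e4 : ∑ i, (-y) i * pd i E z = -(2 * E y) := by
      rw [← e1, ← Finset.sum_neg_distrib]
      refine Finset.sum_congr rfl fun i _ => ?_
      rw [← h i]
      simp
    have p1 := H.pos y hy
    have p2 := H.pos (-y) hny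
    have e5 : 2 * E (-y) = κ⁻¹ * (-(2 * E y)) := by rw [← e2, e3, e4]
    have p3 : 0 < κ⁻¹ := inv_pos.2 hκ0
    nlinarith [mul_pos p3 p1]

end H69Conf
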