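import Pool.Agent.H69R3.Conf.Mat

set_option autoImplicit false

open Finset Matrix

namespace H69Conf

variable {ι : Type*} [Fintype ι] [DecidableEq ι] {R : Type*} [CommRing R] [Algebra ℝ R]

theorem d_prod (δ : Derivation ℝ R R) (f : ι → R) (s : Finset ι) :
    δ (∏ i ∈ s, f i) = ∑ i ∈ s, (∏ j ∈ s.erase i, f j) * δ (f i) := by
  induction s using Finset.induction_on with
  | empty => simp
  | insert a s ha ih =>
    rw [Finset.prod_insert ha, Derivation.leibniz, ih, Finset.sum_insert ha,
      Finset.erase_insert ha, smul_eq_mul, smul_eq_mul, Finset.mul_sum, add_comm]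
    congr 1
    refine Finset.sum_congr rfl fun i hi => ?_
    have hia : a ≠ i := fun h => ha (h ▸ hi)
    rw [Finset.erase_insert_of_ne hia, Finset.prod_insert (by simp [ha])]
    ring

theorem jacobi (δ : Derivation ℝ R R) (M : Matrix ι ι R) :
    δ (det M) = trace (adjugate M * dm δ M) := by
  have h1 : δ (det M) = ∑ i, det (M.updateCol i (fun k => δ (M k i))) := by
    simp only [det_apply', map_sum, Derivation.leibniz, smul_eq_mul]
    rw [Finset.sum_comm]
    refine Finset.sum_congr rfl fun σ _ => ?_
    rw [d_prod, ← Finset.mul_sum]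
    have h0 : δ ((((Equiv.Perm.sign σ : ℤˣ) : ℤ) : R)) = 0 := Derivation.map_intCast _ _
    rw [h0, mul_zero, add_zero]
    congr 1
    refine Finset.sum_congr rfl fun i _ => ?_
    rw [← Finset.mul_prod_erase univ _ (Finset.mem_univ i), mul_comm]
    congr 1
    · simp
    · refine Finset.prod_congr rfl fun j hj => ?_
      rw [Matrix.updateCol_ne (Finset.ne_of_mem_erase hj)]
  rw [h1, trace]
  refine Finset.sum_congr rfl fun i _ => ?_
  rw [diag_apply, ← cramer_apply, cramer_eq_adjugate_mulVec]
  rfl

theorem jacobi' (δ : Derivation ℝ R R) (M h : Matrix ι ι R) (hM : M * h = 1) :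
    δ (det M) = det M * trace (h * dm δ M) := by
  have h1 : adjugate M = det M • h := by
    calc adjugate M = adjugate M * (M * h) := by rw [hM, Matrix.mul_one]
      _ = det M • h := by rw [← Matrix.mul_assoc, adjugate_mul, Matrix.smul_mul, Matrix.one_mul]
  rw [jacobi, h1, Matrix.smul_mul, trace_smul, smul_eq_mul]

end H69Conf
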