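import Mathlib

set_option autoImplicit false

open Finset Matrix

namespace H69Conf

section
variable {ι : Type*} [Fintype ι] [DecidableEq ι] {R : Type*} [CommRing R] [Algebra ℝ R]

/-- entrywise derivation -/
def dm (δ : Derivation ℝ R R) (M : Matrix ι ι R) : Matrix ι ι R := Matrix.of fun i j => δ (M i j)

omit [Fintype ι] [DecidableEq ι] in
@[simp] theorem dm_apply (δ : Derivation ℝ R R) (M : Matrix ι ι R) (i j : ι) :
    dm δ M i j = δ (M i j) := rfl

omit [DecidableEq ι] in
theorem dm_mul (δ : Derivation ℝ R R) (M N : Matrix ι ι R) :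
    dm δ (M * N) = dm δ M * N + M * dm δ N := by
  ext i j
  simp only [dm_apply, Matrix.mul_apply, Matrix.add_apply, map_sum, Derivation.leibniz,
    smul_eq_mul, ← Finset.sum_add_distrib]
  refine Finset.sum_congr rfl fun k _ => ?_
  ring

omit [Fintype ι] in
theorem dm_one (δ : Derivation ℝ R R) : dm δ (1 : Matrix ι ι R) = 0 := by
  ext i j
  by_cases h : i = j
  · subst h; simp [dm_apply]
  · simp [dm_apply, h]

omit [DecidableEq ι] in
theorem d_trace (δ : Derivation ℝ R R) (M : Matrix ι ι R) :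
    δ (trace M) = trace (dm δ M) := by
  simp [trace]

omit [Fintype ι] [DecidableEq ι] in
theorem dm_transpose (δ : Derivation ℝ R R) (M : Matrix ι ι R) :
    dm δ Mᵀ = (dm δ M)ᵀ := rfl

/-- data -/
structure Dat (δ : Derivation ℝ R R) (g h T : Matrix ι ι R) (C : ι → Matrix ι ι R)
    (b e y : ι → R) (B : R) : Prop where
  hsym : hᵀ = h
  hg : h * g = 1
  gh : g * h = 1
  Csym : ∀ j, (C j)ᵀ = C j
  Csym2 : ∀ j k l, C j k l = C k j l
  dC : ∀ j, (2 : R) • dm δ (C j) = -(B • C j) - C j * T - Tᵀ * C j - ∑ i, T i j • C i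
  dg : dm δ g = vecMulVec b e - g * T
  hy : h *ᵥ e = y
  Cy : ∀ j, C j *ᵥ y = 0

variable {δ : Derivation ℝ R R} {g h T : Matrix ι ι R} {C : ι → Matrix ι ι R}
  {b e y : ι → R} {B : R}

theorem Dat.dh (H : Dat δ g h T C b e y B) : dm δ h = -(h * dm δ g * h) := by
  have h1 : dm δ h * g + h * dm δ g = 0 := by rw [← dm_mul, H.hg, dm_one]
  have h2 : dm δ h = -(h * dm δ g) * h := by
    have : dm δ h * g = -(h * dm δ g) := eq_neg_of_add_eq_zero_left h1
    rw [← this, Matrix.mul_assoc, H.gh, Matrix.mul_one]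
  rw [h2, Matrix.neg_mul]

theorem Dat.Th (H : Dat δ g h T C b e y B) :
    T * h = vecMulVec (h *ᵥ b) y + dm δ h := by
  have h1 : T = h * vecMulVec b e - h * dm δ g := by
    have : h * dm δ g = h * vecMulVec b e - T := by
      rw [H.dg, Matrix.mul_sub, ← Matrix.mul_assoc, H.hg, Matrix.one_mul]
    rw [this]; abel
  have h2 : e ᵥ* h = y := by
    rw [← H.hy]
    conv_lhs => rw [← H.hsym]
    rw [vecMul_transpose]
  rw [h1, Matrix.sub_mul, H.dh, mul_vecMulVec, vecMulVec_mul, h2]
  abel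

theorem Dat.dhsym (H : Dat δ g h T C b e y B) : (dm δ h)ᵀ = dm δ h := by
  rw [← dm_transpose, H.hsym]

theorem Dat.hTt (H : Dat δ g h T C b e y B) :
    h * Tᵀ = vecMulVec y (h *ᵥ b) + dm δ h := by
  have h1 : h * Tᵀ = (T * h)ᵀ := by rw [transpose_mul, H.hsym]
  rw [h1, H.Th, transpose_add, transpose_vecMulVec, H.dhsym]

theorem Dat.yC (H : Dat δ g h T C b e y B) (j : ι) : y ᵥ* C j = 0 := by
  rw [← H.Csym j, vecMul_transpose, H.Cy j]

theorem Dat.sumyC (H : Dat δ g h T C b e y B) : ∑ j, y j • C j = 0 := by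
  ext k l
  have h1 : (C k *ᵥ y) l = 0 := by rw [H.Cy k]; rfl
  rw [mulVec, dotProduct] at h1
  simp only [Matrix.sum_apply, Matrix.smul_apply, smul_eq_mul, Matrix.zero_apply]
  rw [← h1]
  refine Finset.sum_congr rfl fun j _ => ?_
  rw [H.Csym2 j k l]
  have : C k j l = C k l j := by
    conv_lhs => rw [← H.Csym k]
    rfl
  rw [this, mul_comm]

theorem trace_vmv (u v : ι → R) (M : Matrix ι ι R) :
    trace (vecMulVec u v * M) = (v ᵥ* M) ⬝ᵥ u := by
  rw [vecMulVec_mul, trace_vecMulVec, dotProduct_comm]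

/-- the contraction -/
def cI (h : Matrix ι ι R) (C : ι → Matrix ι ι R) (j : ι) : R := trace (h * C j)

theorem Dat.dI (H : Dat δ g h T C b e y B) (j : ι) :
    2 * δ (cI h C j) = -(B * cI h C j) - (Tᵀ *ᵥ cI h C) j := by
  have e1 : 2 * δ (cI h C j) = 2 * trace (dm δ h * C j) + trace (h * ((2 : R) • dm δ (C j))) := by
    rw [cI, d_trace, dm_mul, trace_add, Matrix.mul_smul, trace_smul, smul_eq_mul]
    ring
  rw [e1, H.dC j]
  simp only [Matrix.mul_sub, Matrix.mul_neg, trace_sub, trace_neg, Matrix.mul_smul, trace_smul,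
    smul_eq_mul, Matrix.mul_sum, trace_sum]
  have e2 : trace (h * (C j * T)) = trace (dm δ h * C j) := by
    rw [← Matrix.mul_assoc, trace_mul_comm, ← Matrix.mul_assoc, H.Th, Matrix.add_mul, trace_add,
      trace_vmv, H.yC, zero_dotProduct, zero_add]
  have e3 : trace (h * (Tᵀ * C j)) = trace (dm δ h * C j) := by
    rw [← Matrix.mul_assoc, H.hTt, Matrix.add_mul, trace_add, trace_mul_comm,
      mul_vecMulVec, H.Cy, zero_vecMulVec, trace_zero, zero_add]
  rw [e2, e3]
  have e4 : (Tᵀ *ᵥ cI h C) j = ∑ x, T x j * trace (h * C x) := rfl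
  rw [e4, cI]
  ring

theorem Dat.yI (H : Dat δ g h T C b e y B) : y ⬝ᵥ cI h C = 0 := by
  have : y ⬝ᵥ cI h C = trace (h * ∑ j, y j • C j) := by
    rw [Matrix.mul_sum, trace_sum, dotProduct]
    refine Finset.sum_congr rfl fun j _ => ?_
    rw [Matrix.mul_smul, trace_smul, smul_eq_mul, cI]
  rw [this, H.sumyC, Matrix.mul_zero, trace_zero]

/-- squared norm of the contraction -/
def nI (h : Matrix ι ι R) (C : ι → Matrix ι ι R) : R := cI h C ⬝ᵥ (h *ᵥ cI h C)

theorem d_quad (δ : Derivation ℝ R R) (u : ι → R) (h : Matrix ι ι R) (hs : hᵀ = h) :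
    δ (u ⬝ᵥ (h *ᵥ u)) = 2 * ((fun i => δ (u i)) ⬝ᵥ (h *ᵥ u)) + u ⬝ᵥ (dm δ h *ᵥ u) := by
  have hs' : ∀ i j, h i j = h j i := fun i j => by
    conv_lhs => rw [← hs]
    rfl
  have e1 : ((fun i => δ (u i)) ⬝ᵥ (h *ᵥ u)) = ∑ i, ∑ j, u i * h i j * δ (u j) := by
    simp only [dotProduct, mulVec, Finset.mul_sum]
    rw [Finset.sum_comm]
    refine Finset.sum_congr rfl fun i _ => Finset.sum_congr rfl fun j _ => ?_
    rw [hs' j i]; ring
  have e2 : ((fun i => δ (u i)) ⬝ᵥ (h *ᵥ u)) = ∑ i, ∑ j, δ (u i) * h i j * (u j) := by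
    simp only [dotProduct, mulVec, Finset.mul_sum]
    refine Finset.sum_congr rfl fun i _ => Finset.sum_congr rfl fun j _ => ?_
    ring
  rw [two_mul]
  nth_rewrite 1 [e1]
  rw [e2]
  simp only [dotProduct, mulVec, Finset.mul_sum, map_sum, Derivation.leibniz, smul_eq_mul,
    ← Finset.sum_add_distrib, dm_apply]
  refine Finset.sum_congr rfl fun i _ => Finset.sum_congr rfl fun j _ => ?_
  ring

theorem Dat.dnI (H : Dat δ g h T C b e y B) : δ (nI h C) = -(B * nI h C) := by
  rw [nI, d_quad δ _ h H.hsym]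
  have e1 : 2 * ((fun i => δ (cI h C i)) ⬝ᵥ (h *ᵥ cI h C)) =
      -(B * nI h C) - (Tᵀ *ᵥ cI h C) ⬝ᵥ (h *ᵥ cI h C) := by
    simp only [nI, dotProduct, Finset.mul_sum, ← Finset.sum_neg_distrib, ← Finset.sum_sub_distrib]
    refine Finset.sum_congr rfl fun i _ => ?_
    have := H.dI i
    linear_combination ((h *ᵥ cI h C) i) * this
  have e2 : (Tᵀ *ᵥ cI h C) ⬝ᵥ (h *ᵥ cI h C) = cI h C ⬝ᵥ (dm δ h *ᵥ cI h C) := by
    rw [mulVec_transpose, ← dotProduct_mulVec, mulVec_mulVec, H.Th, add_mulVec, dotProduct_add,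
      vecMulVec_mulVec]
    rw [H.yI]
    simp
  rw [e1, e2, ← nI]
  ring

/-- the quadratic contraction matrix -/
def tau (h : Matrix ι ι R) (C : ι → Matrix ι ι R) : Matrix ι ι R :=
  Matrix.of fun j j' => trace (h * C j * h * C j')

/-- squared norm of `C` -/
def nC (h : Matrix ι ι R) (C : ι → Matrix ι ι R) : R := trace (h * tau h C)

theorem tau_symm (h : Matrix ι ι R) (C : ι → Matrix ι ι R) : (tau h C)ᵀ = tau h C := by
  ext j j'
  simp only [transpose_apply, tau, of_apply]
  rw [Matrix.mul_assoc (h * C j'), trace_mul_comm, ← Matrix.mul_assoc]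

theorem Dat.tauy (H : Dat δ g h T C b e y B) : tau h C *ᵥ y = 0 := by
  ext j
  have : (tau h C *ᵥ y) j = trace (h * C j * h * ∑ j', y j' • C j') := by
    rw [Matrix.mul_sum, trace_sum, mulVec, dotProduct]
    refine Finset.sum_congr rfl fun j' _ => ?_
    rw [Matrix.mul_smul, trace_smul, smul_eq_mul, tau, of_apply, mul_comm]
  rw [this, H.sumyC, Matrix.mul_zero, trace_zero]
  rfl

theorem Dat.dtau (H : Dat δ g h T C b e y B) :
    (2 : R) • dm δ (tau h C) = -((2 * B) • tau h C) - Tᵀ * tau h C - tau h C * T := by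
  have key : ∀ j j', trace (h * ((2 : R) • dm δ (C j)) * h * C j') =
      -(B * tau h C j j') - trace (dm δ h * C j' * h * C j) - trace (dm δ h * C j * h * C j')
        - (Tᵀ * tau h C) j j' := by
    intro j j'
    rw [H.dC j]
    simp only [Matrix.mul_sub, Matrix.mul_neg, Matrix.sub_mul, Matrix.neg_mul, trace_sub,
      trace_neg, Matrix.mul_smul, Matrix.smul_mul, trace_smul, smul_eq_mul, Matrix.mul_sum,
      Matrix.sum_mul, trace_sum]
    have e2 : trace (h * (C j * T) * h * C j') = trace (dm δ h * C j' * h * C j) := by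
      have : h * (C j * T) * h * C j' = (h * C j) * (T * h * C j') := by
        simp only [Matrix.mul_assoc]
      rw [this, trace_mul_comm, H.Th]
      simp only [Matrix.add_mul, trace_add]
      rw [Matrix.mul_assoc (vecMulVec _ _), trace_vmv, ← vecMul_vecMul, H.yC, zero_vecMul,
        zero_dotProduct, zero_add]
      simp only [Matrix.mul_assoc]
    have e3 : trace (h * (Tᵀ * C j) * h * C j') = trace (dm δ h * C j * h * C j') := by
      have : h * (Tᵀ * C j) * h * C j' = (h * Tᵀ) * (C j * h * C j') := by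
        simp only [Matrix.mul_assoc]
      rw [this, H.hTt, Matrix.add_mul, trace_add, trace_mul_comm, mul_vecMulVec,
        ← mulVec_mulVec, H.Cy, mulVec_zero, zero_vecMulVec, trace_zero, zero_add]
      simp only [Matrix.mul_assoc]
    rw [e2, e3]
    have e4 : (Tᵀ * tau h C) j j' = ∑ x, T x j * trace (h * C x * h * C j') := rfl
    rw [e4]
    rfl
  ext j j'
  have e1 : ((2 : R) • dm δ (tau h C)) j j' =
      2 * trace (dm δ h * C j * h * C j') + trace (h * ((2 : R) • dm δ (C j)) * h * C j')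
      + 2 * trace (dm δ h * C j' * h * C j) + trace (h * ((2 : R) • dm δ (C j')) * h * C j) := by
    have e5 : ((2 : R) • dm δ (tau h C)) j j' = 2 * δ (trace (h * C j * h * C j')) := rfl
    rw [e5, d_trace, dm_mul, dm_mul, dm_mul]
    simp only [Matrix.add_mul, trace_add, Matrix.mul_smul, Matrix.smul_mul, trace_smul,
      smul_eq_mul]
    have e6 : trace (h * C j * dm δ h * C j') = trace (dm δ h * C j' * h * C j) := by
      rw [Matrix.mul_assoc (h * C j), trace_mul_comm]
      simp only [Matrix.mul_assoc]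
    have e7 : trace (h * C j * h * dm δ (C j')) = trace (h * dm δ (C j') * h * C j) := by
      rw [Matrix.mul_assoc (h * C j), trace_mul_comm]
      simp only [Matrix.mul_assoc]
    rw [e6, e7]
    ring
  have hsy : ∀ j j', tau h C j j' = tau h C j' j := fun j j' => by
    conv_lhs => rw [← tau_symm]
    rfl
  have e8 : (Tᵀ * tau h C) j' j = (tau h C * T) j j' := by
    simp only [Matrix.mul_apply, transpose_apply]
    refine Finset.sum_congr rfl fun i _ => ?_
    rw [hsy i j, mul_comm]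
  rw [e1, key j j', key j' j, e8, hsy j' j]
  simp only [Matrix.sub_apply, Matrix.neg_apply, Matrix.smul_apply, smul_eq_mul]
  ring

theorem Dat.dnC (H : Dat δ g h T C b e y B) : 2 * δ (nC h C) = 2 * (-(B * nC h C)) := by
  have e1 : 2 * δ (nC h C) = 2 * trace (dm δ h * tau h C)
      + trace (h * ((2 : R) • dm δ (tau h C))) := by
    rw [nC, d_trace, dm_mul, trace_add, Matrix.mul_smul, trace_smul, smul_eq_mul]
    ring
  rw [e1, H.dtau]
  simp only [Matrix.mul_sub, Matrix.mul_neg, trace_sub, trace_neg, Matrix.mul_smul, trace_smul,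
    smul_eq_mul]
  have hyt : y ᵥ* tau h C = 0 := by
    rw [← tau_symm, vecMul_transpose, H.tauy]
  have e2 : trace (h * (tau h C * T)) = trace (dm δ h * tau h C) := by
    rw [← Matrix.mul_assoc, trace_mul_comm, ← Matrix.mul_assoc, H.Th, Matrix.add_mul, trace_add,
      trace_vmv, hyt, zero_dotProduct, zero_add]
  have e3 : trace (h * (Tᵀ * tau h C)) = trace (dm δ h * tau h C) := by
    rw [← Matrix.mul_assoc, H.hTt, Matrix.add_mul, trace_add, trace_mul_comm,
      mul_vecMulVec, H.tauy, zero_vecMulVec, trace_zero, zero_add]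
  rw [e2, e3, nC]
  ring

end

end H69Conf
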