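import Mathlib

set_option autoImplicit false

open Finset Matrix

namespace H69Conf

/-- punctured space -/
def Om (n : ℕ) : Set (Fin n → ℝ) := {y | y ≠ 0}

theorem isOpen_Om (n : ℕ) : IsOpen (Om n) := isOpen_ne

/-- standard basis vector -/
noncomputable abbrev eb {n : ℕ} (i : Fin n) : Fin n → ℝ := (Pi.single i (1 : ℝ) : Fin n → ℝ)

/-- extension by zero -/
noncomputable def ex {n : ℕ} (f : Om n → ℝ) : (Fin n → ℝ) → ℝ := by
  classical
  exact fun y => if h : y ∈ Om n then f ⟨y, h⟩ else 0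

theorem ex_of_mem {n : ℕ} (f : Om n → ℝ) {y : Fin n → ℝ} (h : y ∈ Om n) :
    ex f y = f ⟨y, h⟩ := by simp [ex, h]

/-- partial derivative -/
noncomputable def pd {n : ℕ} (i : Fin n) (F : (Fin n → ℝ) → ℝ) : (Fin n → ℝ) → ℝ :=
  fun y => fderiv ℝ F y (eb i)

theorem pd_congr {n : ℕ} (i : Fin n) {F G : (Fin n → ℝ) → ℝ}
    (h : ∀ y ∈ Om n, F y = G y) {y : Fin n → ℝ} (hy : y ∈ Om n) : pd i F y = pd i G y := by
  have : F =ᶠ[nhds y] G := by
    filter_upwards [(isOpen_Om n).mem_nhds hy] with z hz using h z hz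
  rw [pd, pd, this.fderiv_eq]

theorem smooth_pd {n : ℕ} (i : Fin n) {F : (Fin n → ℝ) → ℝ}
    (hF : ContDiffOn ℝ ((⊤ : ℕ∞) : WithTop ℕ∞) F (Om n)) :
    ContDiffOn ℝ ((⊤ : ℕ∞) : WithTop ℕ∞) (pd i F) (Om n) := by
  have h1 : ContDiffOn ℝ ((⊤ : ℕ∞) : WithTop ℕ∞) (fderiv ℝ F) (Om n) :=
    hF.fderiv_of_isOpen (isOpen_Om n) (by norm_cast)
  exact h1.clm_apply contDiffOn_const

theorem diffAt {n : ℕ} {F : (Fin n → ℝ) → ℝ}
    (hF : ContDiffOn ℝ ((⊤ : ℕ∞) : WithTop ℕ∞) F (Om n)) {y : Fin n → ℝ} (hy : y ∈ Om n) :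
    DifferentiableAt ℝ F y :=
  (hF.differentiableOn (by norm_cast)).differentiableAt ((isOpen_Om n).mem_nhds hy)

/-- ring of smooth functions on the punctured space -/
noncomputable def SR (n : ℕ) : Subalgebra ℝ (Om n → ℝ) where
  carrier := {f | ContDiffOn ℝ ((⊤ : ℕ∞) : WithTop ℕ∞) (ex f) (Om n)}
  mul_mem' := by
    intro a b ha hb
    refine (ContDiffOn.mul ha hb).congr fun y hy => ?_
    simp [ex_of_mem _ hy]
  add_mem' := by
    intro a b ha hb
    refine (ContDiffOn.add ha hb).congr fun y hy => ?_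
    simp [ex_of_mem _ hy]
  algebraMap_mem' := by
    intro r
    refine (contDiffOn_const (c := r)).congr fun y hy => ?_
    simp [ex_of_mem _ hy]

/-- make an element from a smooth function -/
noncomputable def mk {n : ℕ} (F : (Fin n → ℝ) → ℝ)
    (hF : ContDiffOn ℝ ((⊤ : ℕ∞) : WithTop ℕ∞) F (Om n)) : SR n :=
  ⟨fun y => F y.1, hF.congr fun y hy => by simp [ex_of_mem _ hy]⟩

theorem ext_SR {n : ℕ} {f g : SR n} (h : ∀ y : Om n, f.1 y = g.1 y) : f = g :=
  Subtype.ext (funext h)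

theorem smoothSR {n : ℕ} (f : SR n) :
    ContDiffOn ℝ ((⊤ : ℕ∞) : WithTop ℕ∞) (ex f.1) (Om n) := f.2

/-- the derivation -/
noncomputable def D {n : ℕ} (i : Fin n) : Derivation ℝ (SR n) (SR n) :=
  Derivation.mk'
    { toFun := fun f => mk (pd i (ex f.1)) (smooth_pd i f.2)
      map_add' := by
        intro f g
        apply ext_SR
        rintro ⟨y, hy⟩
        show pd i (ex (f + g).1) y = pd i (ex f.1) y + pd i (ex g.1) y
        have h1 : pd i (ex (f + g).1) y = pd i (fun z => ex f.1 z + ex g.1 z) y :=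
          pd_congr i (fun z hz => by simp [ex_of_mem _ hz]) hy
        rw [h1]
        simp only [pd]
        rw [fderiv_fun_add (diffAt f.2 hy) (diffAt g.2 hy)]
        rfl
      map_smul' := by
        intro r f
        apply ext_SR
        rintro ⟨y, hy⟩
        show pd i (ex (r • f).1) y = r * pd i (ex f.1) y
        have h1 : pd i (ex (r • f).1) y = pd i (fun z => r * ex f.1 z) y :=
          pd_congr i (fun z hz => by simp [ex_of_mem _ hz]) hy
        rw [h1]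
        simp only [pd]
        rw [fderiv_const_mul (diffAt f.2 hy)]
        rfl }
    (by
      intro f g
      apply ext_SR
      rintro ⟨y, hy⟩
      show pd i (ex (f * g).1) y = f.1 ⟨y, hy⟩ * pd i (ex g.1) y + g.1 ⟨y, hy⟩ * pd i (ex f.1) y
      have h1 : pd i (ex (f * g).1) y = pd i (fun z => ex f.1 z * ex g.1 z) y :=
        pd_congr i (fun z hz => by simp [ex_of_mem _ hz]) hy
      rw [h1]
      simp only [pd]
      rw [fderiv_fun_mul (diffAt f.2 hy) (diffAt g.2 hy)]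
      simp only [_root_.add_apply, _root_.smul_apply, smul_eq_mul,
        ex_of_mem _ hy])

theorem D_apply {n : ℕ} (i : Fin n) (f : SR n) (y : Om n) :
    (D i f).1 y = pd i (ex f.1) y.1 := rfl

theorem D_mk {n : ℕ} (i : Fin n) (F : (Fin n → ℝ) → ℝ)
    (hF : ContDiffOn ℝ ((⊤ : ℕ∞) : WithTop ℕ∞) F (Om n)) :
    D i (mk F hF) = mk (pd i F) (smooth_pd i hF) := by
  apply ext_SR
  rintro ⟨y, hy⟩
  exact pd_congr i (fun z hz => by simp [ex_of_mem _ hz, mk]) hy

theorem mk_ex {n : ℕ} (f : SR n) : mk (ex f.1) (smoothSR f) = f := by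
  apply ext_SR
  rintro ⟨y, hy⟩
  simp [mk, ex_of_mem _ hy]

theorem pd_comm {n : ℕ} (i j : Fin n) {F : (Fin n → ℝ) → ℝ}
    (hF : ContDiffOn ℝ ((⊤ : ℕ∞) : WithTop ℕ∞) F (Om n)) {y : Fin n → ℝ} (hy : y ∈ Om n) :
    pd i (pd j F) y = pd j (pd i F) y := by
  have hc : ContDiffAt ℝ ((⊤ : ℕ∞) : WithTop ℕ∞) F y :=
    hF.contDiffAt ((isOpen_Om n).mem_nhds hy)
  have hs : IsSymmSndFDerivAt ℝ F y := hc.isSymmSndFDerivAt (by
    rw [minSmoothness_of_isRCLikeNormedField]; exact WithTop.coe_le_coe.2 le_top)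
  have hd : DifferentiableAt ℝ (fderiv ℝ F) y := by
    have h1 : ContDiffOn ℝ ((⊤ : ℕ∞) : WithTop ℕ∞) (fderiv ℝ F) (Om n) :=
      hF.fderiv_of_isOpen (isOpen_Om n) (by norm_cast)
    exact (h1.differentiableOn (by norm_cast)).differentiableAt ((isOpen_Om n).mem_nhds hy)
  have key : ∀ a b : Fin n, pd a (pd b F) y = fderiv ℝ (fderiv ℝ F) y (eb a) (eb b) := by
    intro a b
    show fderiv ℝ (fun z => fderiv ℝ F z (eb b)) y (eb a) = _
    rw [fderiv_clm_apply hd (differentiableAt_const _)]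
    simp
  rw [key, key]
  exact hs _ _

theorem D_comm {n : ℕ} (i j : Fin n) (f : SR n) : D i (D j f) = D j (D i f) := by
  rw [← mk_ex f]
  rw [D_mk, D_mk, D_mk, D_mk]
  apply ext_SR
  rintro ⟨y, hy⟩
  exact pd_comm i j (smoothSR f) hy

/-- coordinate functions -/
noncomputable def yc {n : ℕ} (i : Fin n) : SR n :=
  mk (fun y => y i) (by fun_prop)

theorem D_yc {n : ℕ} (i j : Fin n) : D j (yc i) = if i = j then 1 else 0 := by
  rw [yc, D_mk]
  apply ext_SR
  rintro ⟨y, hy⟩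
  have h1 : pd j (fun y : Fin n → ℝ => y i) y = if i = j then 1 else 0 := by
    have h2 : (fun y : Fin n → ℝ => y i) =
        (ContinuousLinearMap.proj (R := ℝ) i : (Fin n → ℝ) →L[ℝ] ℝ) := rfl
    simp only [pd]
    rw [h2, ContinuousLinearMap.fderiv]
    simp [eb, Pi.single_apply]
  show pd j (fun y : Fin n → ℝ => y i) y = _
  rw [h1]
  split_ifs <;> rfl

end H69Conf
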